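import Mathlib
import Pool.Agent.H932R5.Points

set_option autoImplicit false

/-!
# Polynomials with fat points: derivations of the coefficients and leading forms
-/

namespace Pool.Agent.Q78.GW

open MvPolynomial Pool.Agent.H932R5

section dc

variable {K : Type} [Field K] {σ : Type} (D : Derivation ℤ K K)

/-- A derivation applied to the coefficients. -/
noncomputable def dc (f : MvPolynomial σ K) : MvPolynomial σ K :=
  ∑ α ∈ f.support, monomial α (D (coeff α f))

theorem coeff_dc (f : MvPolynomial σ K) (α : σ →₀ ℕ) : coeff α (dc D f) = D (coeff α f) := by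
  classical
  unfold dc
  rw [coeff_sum]
  simp only [coeff_monomial]
  rw [Finset.sum_ite_eq' f.support α]
  split_ifs with h
  · rfl
  · rw [notMem_support_iff.1 h, map_zero]

theorem dc_add (f g : MvPolynomial σ K) : dc D (f + g) = dc D f + dc D g := by
  ext α
  rw [coeff_dc, coeff_add, coeff_add, map_add, coeff_dc, coeff_dc]

theorem dc_mul (f g : MvPolynomial σ K) : dc D (f * g) = dc D f * g + f * dc D g := by
  classical
  ext α
  rw [coeff_dc, coeff_mul, map_sum, coeff_add, coeff_mul, coeff_mul, ← Finset.sum_add_distrib]
  refine Finset.sum_congr rfl fun p _ => ?_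
  rw [Derivation.leibniz, coeff_dc, coeff_dc, smul_eq_mul, smul_eq_mul]
  ring

theorem dc_C (c : K) : dc D (C c : MvPolynomial σ K) = C (D c) := by
  classical
  ext α
  rw [coeff_dc, coeff_C, coeff_C]
  split_ifs
  · rfl
  · rw [map_zero]

theorem dc_X (j : σ) : dc D (X j : MvPolynomial σ K) = 0 := by
  classical
  ext α
  rw [coeff_dc, coeff_X', coeff_zero]
  split_ifs
  · exact D.map_one_eq_zero
  · rw [map_zero]

end dc

section shift

variable {K : Type} [Field K] {E : ℕ}

theorem pderiv_shift (p : Fin (E + 1) → K) (a : Fin (E + 1)) (f : MvPolynomial (Fin (E + 1)) K) :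
    shift p (pderiv a f) = pderiv a (shift p f) := by
  classical
  induction f using MvPolynomial.induction_on with
  | C c => simp [shift_C]
  | add f g hf hg => simp [hf, hg]
  | mul_X f j hf =>
    rw [Derivation.leibniz, map_add, smul_eq_mul, smul_eq_mul, map_mul, map_mul, hf, map_mul,
      Derivation.leibniz, smul_eq_mul, smul_eq_mul, shift_X, map_add, pderiv_C, add_zero, pderiv_X]
    congr 2
    by_cases h : j = a
    · subst h
      simp
    · simp [Pi.single_apply, h, Ne.symm h]

theorem shift_dc (D : Derivation ℤ K K) (p : Fin (E + 1) → K)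
    (f : MvPolynomial (Fin (E + 1)) K) :
    shift p (dc D f) = dc D (shift p f) - ∑ a, C (D (p a)) * pderiv a (shift p f) := by
  classical
  induction f using MvPolynomial.induction_on with
  | C c => simp [shift_C, dc_C]
  | add f g hf hg =>
    rw [dc_add, map_add, hf, hg, map_add, dc_add]
    simp only [map_add, mul_add, Finset.sum_add_distrib]
    ring
  | mul_X f j hf =>
    rw [dc_mul, dc_X, mul_zero, add_zero, map_mul, hf, map_mul, shift_X, dc_mul, dc_add, dc_X,
      dc_C, zero_add]
    have h1 : ∀ a, C (D (p a)) * pderiv a (shift p f * (X j + C (p j))) =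
        C (D (p a)) * pderiv a (shift p f) * (X j + C (p j)) +
          (if a = j then C (D (p j)) * shift p f else 0) := by
      intro a
      rw [Derivation.leibniz, smul_eq_mul, smul_eq_mul, map_add, pderiv_C, add_zero, pderiv_X]
      split_ifs with h
      · subst h
        simp
        ring
      · simp [Pi.single_apply, h, Ne.symm h]
        ring
    rw [Finset.sum_congr rfl fun a _ => h1 a, Finset.sum_add_distrib, Finset.sum_ite_eq',
      if_pos (Finset.mem_univ _), ← Finset.sum_mul]
    ring

end shift

end Pool.Agent.Q78.GW
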