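import Mathlib
import Pool.Agent.Q78.GW.Base
import Pool.Agent.H135R2.VS.Der

set_option autoImplicit false

/-!
# The spaces of leading forms
-/

namespace Pool.Agent.Q78.GW

open MvPolynomial Pool.Agent.H932R5

variable {K : Type} [Field K] {E n : ℕ}

/-- The polynomials of degree at most `d` vanishing to order `w i` at `P i`. -/
noncomputable def Lw (d : ℕ) (P : Fin n → Fin (E + 1) → K) (w : Fin n → ℕ) :
    Submodule K (MvPolynomial (Fin (E + 1)) K) where
  carrier := {f | (∀ α, d < Finsupp.degree α → coeff α f = 0) ∧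
    ∀ i α, Finsupp.degree α < w i → coeff α (shift (P i) f) = 0}
  zero_mem' := by simp
  add_mem' := by
    rintro f g ⟨h1, h2⟩ ⟨h3, h4⟩
    refine ⟨fun α hα => ?_, fun i α hα => ?_⟩
    · rw [coeff_add, h1 α hα, h3 α hα, add_zero]
    · rw [map_add, coeff_add, h2 i α hα, h4 i α hα, add_zero]
  smul_mem' := by
    rintro c f ⟨h1, h2⟩
    refine ⟨fun α hα => ?_, fun i α hα => ?_⟩
    · rw [coeff_smul, h1 α hα, smul_zero]
    · rw [map_smul, coeff_smul, h2 i α hα, smul_zero]

theorem mem_Lw {d : ℕ} {P : Fin n → Fin (E + 1) → K} {w : Fin n → ℕ}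
    {f : MvPolynomial (Fin (E + 1)) K} : f ∈ Lw d P w ↔
      (∀ α, d < Finsupp.degree α → coeff α f = 0) ∧
        ∀ i α, Finsupp.degree α < w i → coeff α (shift (P i) f) = 0 := Iff.rfl

theorem Lw_eq (d : ℕ) (P : Fin n → Fin (E + 1) → K) (w : Fin n → ℕ) :
    Lw d P w = mspan K (Td E d) ⊓ Submodule.restrictScalars K (Z w P) := by
  ext f
  rw [mem_Lw, Submodule.mem_inf, mem_mspan, Submodule.restrictScalars_mem, mem_Z]
  refine and_congr ⟨fun h α hα => ?_, fun h α hα => ?_⟩
    (forall_congr' fun i => mem_pt_pow_iff.symm)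
  · by_contra h1
    exact hα (h α (not_le.1 h1))
  · by_contra h1
    exact absurd (h α h1) (not_le.2 hα)

theorem Lw_mono {d : ℕ} {P : Fin n → Fin (E + 1) → K} {w w' : Fin n → ℕ} (h : w' ≤ w) :
    Lw d P w ≤ Lw d P w' :=
  fun _ hf => ⟨hf.1, fun i α hα => hf.2 i α (lt_of_lt_of_le hα (h i))⟩

theorem Lw_fin (d : ℕ) (P : Fin n → Fin (E + 1) → K) (w : Fin n → ℕ) :
    FiniteDimensional K ↥(Lw d P w) := by
  rw [Lw_eq, ← coe_dg]
  have := finite_mspan (K := K) (dg E (d + 1))
  exact Submodule.finiteDimensional_of_le inf_le_left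

/-- The form of degree `m` in the expansion at `p`. -/
noncomputable def ld (p : Fin (E + 1) → K) (m : ℕ) :
    MvPolynomial (Fin (E + 1)) K →ₗ[K] MvPolynomial (Fin (E + 1)) K :=
  (homogeneousComponent m).comp (shift p).toLinearMap

theorem coeff_ld (p : Fin (E + 1) → K) (m : ℕ) (f : MvPolynomial (Fin (E + 1)) K)
    (α : Fin (E + 1) →₀ ℕ) :
    coeff α (ld p m f) = if Finsupp.degree α = m then coeff α (shift p f) else 0 := by
  unfold ld
  rw [LinearMap.comp_apply, coeff_homogeneousComponent]
  rfl

/-- The leading forms of degree `w i` at the point `P i`. -/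
noncomputable def Wl (d : ℕ) (P : Fin n → Fin (E + 1) → K) (w : Fin n → ℕ) (i : Fin n) :
    Submodule K (MvPolynomial (Fin (E + 1)) K) :=
  (Lw d P w).map (ld (P i) (w i))

theorem Wl_homog (d : ℕ) (P : Fin n → Fin (E + 1) → K) (w : Fin n → ℕ) (i : Fin n) :
    Wl d P w i ≤ homogeneousSubmodule (Fin (E + 1)) K (w i) := by
  rintro _ ⟨f, _, rfl⟩
  exact homogeneousComponent_isHomogeneous _ _

theorem Wl_mono {d : ℕ} {P : Fin n → Fin (E + 1) → K} {w w' : Fin n → ℕ} (h : w' ≤ w)
    {i : Fin n} (hi : w' i = w i) : Wl d P w i ≤ Wl d P w' i := by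
  unfold Wl
  rw [hi]
  exact Submodule.map_mono (Lw_mono h)

theorem homog_fin (m : ℕ) : FiniteDimensional K ↥(homogeneousSubmodule (Fin (E + 1)) K m) := by
  have h1 : homogeneousSubmodule (Fin (E + 1)) K m ≤ mspan K (Td E m) := by
    intro f hf
    rw [mem_mspan]
    intro α hα
    have h2 := hf hα
    have h3 : Finsupp.degree α = m := by
      rw [Finsupp.degree_eq_weight_one]
      exact h2
    exact le_of_eq h3
  rw [← coe_dg] at h1
  have := finite_mspan (K := K) (dg E (m + 1))
  exact Submodule.finiteDimensional_of_le h1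

theorem Wl_fin (d : ℕ) (P : Fin n → Fin (E + 1) → K) (w : Fin n → ℕ) (i : Fin n) :
    FiniteDimensional K ↥(Wl d P w i) := by
  have := homog_fin (K := K) (E := E) (w i)
  exact Submodule.finiteDimensional_of_le (Wl_homog d P w i)

/-- Raising one multiplicity. -/
theorem finrank_split (d : ℕ) (P : Fin n → Fin (E + 1) → K) (w : Fin n → ℕ) (i : Fin n) :
    Module.finrank K ↥(Wl d P w i) +
      Module.finrank K ↥(Lw d P (Function.update w i (w i + 1))) =
      Module.finrank K ↥(Lw d P w) := by
  have := Lw_fin d P w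
  have h1 := LinearMap.finrank_range_add_finrank_ker ((ld (P i) (w i)).domRestrict (Lw d P w))
  rw [LinearMap.range_domRestrict] at h1
  have h2 : Module.finrank K (LinearMap.ker ((ld (P i) (w i)).domRestrict (Lw d P w))) =
      Module.finrank K ↥(Lw d P (Function.update w i (w i + 1))) := by
    have key : ∀ f : LinearMap.ker ((ld (P i) (w i)).domRestrict (Lw d P w)),
        f.1.1 ∈ Lw d P (Function.update w i (w i + 1)) := by
      intro f
      refine ⟨f.1.2.1, fun j α hα => ?_⟩
      by_cases hj : j = i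
      · subst hj
        rw [Function.update_self] at hα
        rcases Nat.lt_succ_iff_lt_or_eq.1 hα with h | h
        · exact f.1.2.2 j α h
        · have h3 : coeff α (ld (P j) (w j) f.1.1) = 0 := by
            have h4 : ld (P j) (w j) f.1.1 = 0 := f.2
            rw [h4, coeff_zero]
          rwa [coeff_ld, if_pos h] at h3
      · rw [Function.update_of_ne hj] at hα
        exact f.1.2.2 j α hα
    refine LinearEquiv.finrank_eq (LinearEquiv.ofBijective
      { toFun := fun f => ⟨f.1.1, key f⟩
        map_add' := fun f g => rfl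
        map_smul' := fun a f => rfl } ⟨?_, ?_⟩)
    · intro f g hfg
      have h : f.1.1 = g.1.1 :=
        congrArg (fun z : ↥(Lw d P (Function.update w i (w i + 1))) =>
          (z : MvPolynomial (Fin (E + 1)) K)) hfg
      exact Subtype.ext (Subtype.ext h)
    · rintro ⟨f, hf⟩
      have hf' : f ∈ Lw d P w := by
        refine Lw_mono (fun j => ?_) hf
        by_cases hj : j = i
        · subst hj
          rw [Function.update_self]
          exact Nat.le_succ _
        · rw [Function.update_of_ne hj]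
      refine ⟨⟨⟨f, hf'⟩, ?_⟩, rfl⟩
      show ld (P i) (w i) f = 0
      ext α
      rw [coeff_ld, coeff_zero]
      split_ifs with h
      · refine hf.2 i α ?_
        rw [Function.update_self]
        omega
      · rfl
  rw [h2] at h1
  exact h1

/-- Moving some of the points. -/
theorem move (D : Derivation ℤ K K) {d : ℕ} {P : Fin n → Fin (E + 1) → K} {w w' : Fin n → ℕ}
    (hw : ∀ k, (w' k ≤ w k ∧ ∀ a, D (P k a) = 0) ∨ w' k ≤ w k - 1)
    {f : MvPolynomial (Fin (E + 1)) K} (hf : f ∈ Lw d P w) : dc D f ∈ Lw d P w' := by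
  refine ⟨fun α hα => ?_, fun k α hα => ?_⟩
  · rw [coeff_dc, hf.1 α hα, map_zero]
  · rw [shift_dc, coeff_sub, coeff_dc, coeff_sum]
    have hk : Finsupp.degree α < w k := by
      rcases hw k with h | h
      · omega
      · omega
    rw [hf.2 k α hk, map_zero, zero_sub, neg_eq_zero]
    refine Finset.sum_eq_zero fun a _ => ?_
    rw [coeff_C_mul]
    rcases hw k with h | h
    · rw [h.2 a, zero_mul]
    · rw [coeff_pderiv, hf.2 k, zero_mul, mul_zero]
      rw [map_add, Finsupp.degree_single]
      omega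

theorem ld_dc (D : Derivation ℤ K K) {p : Fin (E + 1) → K} (hp : ∀ a, D (p a) = 0) (m : ℕ)
    (f : MvPolynomial (Fin (E + 1)) K) : ld p m (dc D f) = dc D (ld p m f) := by
  ext α
  rw [coeff_ld, coeff_dc, coeff_ld, shift_dc]
  split_ifs
  · rw [coeff_sub, coeff_dc, coeff_sum, Finset.sum_eq_zero, sub_zero]
    intro a _
    rw [hp a, map_zero, zero_mul, coeff_zero]
  · rw [map_zero]

/-- Moving the point itself: the leading form is differentiated. -/
theorem ld_dc_self (D : Derivation ℤ K K) {p : Fin (E + 1) → K} {m : ℕ}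
    {f : MvPolynomial (Fin (E + 1)) K}
    (hf : ∀ α, Finsupp.degree α < m + 1 → coeff α (shift p f) = 0) :
    ld p m (dc D f) = - ∑ a, C (D (p a)) * pderiv a (ld p (m + 1) f) := by
  ext α
  rw [coeff_ld, coeff_neg, coeff_sum]
  split_ifs with h
  · rw [shift_dc, coeff_sub, coeff_dc, hf α (by omega), map_zero, zero_sub, coeff_sum, neg_inj]
    refine Finset.sum_congr rfl fun a _ => ?_
    rw [coeff_C_mul, coeff_C_mul, coeff_pderiv, coeff_pderiv, coeff_ld, if_pos]
    rw [map_add, Finsupp.degree_single, h]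
  · symm
    rw [neg_eq_zero]
    refine Finset.sum_eq_zero fun a _ => ?_
    rw [coeff_C_mul, coeff_pderiv, coeff_ld, if_neg, zero_mul, mul_zero]
    rw [map_add, Finsupp.degree_single]
    omega

/-- The multiplication by the variable `b` after the derivative with respect to `a`. -/
theorem coeff_X_pderiv (a b : Fin (E + 1)) (g : MvPolynomial (Fin (E + 1)) K)
    (α : Fin (E + 1) →₀ ℕ) : coeff α (X b * pderiv a g) =
      if α b = 0 then 0 else
        coeff (α - Finsupp.single b 1 + Finsupp.single a 1) g *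
          (((α - Finsupp.single b 1 : Fin (E + 1) →₀ ℕ) a : K) + 1) := by
  classical
  rw [coeff_X_mul', coeff_pderiv]
  by_cases h : α b = 0
  · rw [if_neg, if_pos h]
    rw [Finsupp.mem_support_iff]
    exact fun h' => h' h
  · rw [if_pos, if_neg h]
    rw [Finsupp.mem_support_iff]
    exact h

theorem degree_xp {a b : Fin (E + 1)} {α : Fin (E + 1) →₀ ℕ} (h : α b ≠ 0) :
    Finsupp.degree (α - Finsupp.single b 1 + Finsupp.single a 1) = Finsupp.degree α := by
  have h1 : α - Finsupp.single b 1 + Finsupp.single b 1 = α :=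
    tsub_add_cancel_of_le (Finsupp.single_le_iff.2 (Nat.one_le_iff_ne_zero.2 h))
  have h2 := congrArg Finsupp.degree h1
  rw [map_add, Finsupp.degree_single] at h2
  rw [map_add, Finsupp.degree_single, h2]

/-- Moving the points along a linear vector field which vanishes at `P i`. -/
theorem move_lin (D : Derivation ℤ K K) {d : ℕ} {P : Fin n → Fin (E + 1) → K} {w : Fin n → ℕ}
    (i : Fin n) (a b : Fin (E + 1))
    (hD : ∀ k c, D (P k c) = if c = a then P k b - P i b else 0)
    {f : MvPolynomial (Fin (E + 1)) K} (hf : f ∈ Lw d P w) :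
    dc D f + (X b - C (P i b)) * pderiv a f ∈ Lw d P w := by
  have hsh : ∀ k, shift (P k) (dc D f + (X b - C (P i b)) * pderiv a f) =
      dc D (shift (P k) f) + X b * pderiv a (shift (P k) f) := by
    intro k
    rw [map_add, map_mul, map_sub, shift_X, shift_C, pderiv_shift, shift_dc,
      Finset.sum_eq_single a]
    · rw [hD, if_pos rfl, C_sub]
      ring
    · intro c _ hc
      rw [hD, if_neg hc, map_zero, zero_mul]
    · intro h
      exact absurd (Finset.mem_univ a) h
  refine ⟨fun α hα => ?_, fun k α hα => ?_⟩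
  · have h1 : coeff α ((X b - C (P i b)) * pderiv a f) = 0 := by
      rw [sub_mul, coeff_sub, coeff_C_mul, coeff_X_pderiv, coeff_pderiv]
      rw [hf.1 (α + Finsupp.single a 1) (by
        rw [map_add, Finsupp.degree_single]
        omega), zero_mul, mul_zero, sub_zero]
      split_ifs with h
      · rfl
      · rw [hf.1 _ (by rw [degree_xp h]; exact hα), zero_mul]
    rw [coeff_add, h1, coeff_dc, hf.1 α hα, map_zero, add_zero]
  · rw [hsh, coeff_add, coeff_dc, hf.2 k α hα, map_zero, zero_add, coeff_X_pderiv]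
    split_ifs with h
    · rfl
    · rw [hf.2 k _ (by rw [degree_xp h]; exact hα), zero_mul]

theorem ld_move_lin (D : Derivation ℤ K K) {P : Fin n → Fin (E + 1) → K}
    (i : Fin n) (a b : Fin (E + 1))
    (hD : ∀ k c, D (P k c) = if c = a then P k b - P i b else 0) (m : ℕ)
    (f : MvPolynomial (Fin (E + 1)) K) :
    ld (P i) m (dc D f + (X b - C (P i b)) * pderiv a f) =
      dc D (ld (P i) m f) + X b * pderiv a (ld (P i) m f) := by
  have h0 : ∀ c, D (P i c) = 0 := by
    intro c
    rw [hD, sub_self, ite_self]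
  rw [map_add, ld_dc D h0]
  congr 1
  ext α
  rw [coeff_ld, map_mul, map_sub, shift_X, shift_C, add_sub_cancel_right, pderiv_shift,
    coeff_X_pderiv, coeff_X_pderiv]
  by_cases h : α b = 0
  · rw [if_pos h, if_pos h, ite_self]
  · rw [if_neg h, if_neg h, coeff_ld, degree_xp h]
    split_ifs
    · rfl
    · rw [zero_mul]

end Pool.Agent.Q78.GW
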