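import Mathlib
import Pool.Agent.Q78.GW.Lead

set_option autoImplicit false

/-!
# Subspaces of forms which are stable under the linear vector fields
-/

namespace Pool.Agent.Q78.GW

open MvPolynomial Pool.Agent.H932R5

variable {K : Type} [Field K] {E : ℕ}

theorem degree_eq_sum' (α : Fin (E + 1) →₀ ℕ) : Finsupp.degree α = ∑ c, α c := by
  rw [Finsupp.degree_eq_sum]

/-- The part of the degree outside the variable `0`. -/
def rd (α : Fin (E + 1) →₀ ℕ) : ℕ := ∑ c ∈ Finset.univ.erase 0, α c

theorem rd_add (α β : Fin (E + 1) →₀ ℕ) : rd (α + β) = rd α + rd β := by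
  unfold rd
  rw [← Finset.sum_add_distrib]
  rfl

theorem rd_single {a : Fin (E + 1)} (ha : a ≠ 0) : rd (Finsupp.single a 1) = 1 := by
  classical
  unfold rd
  rw [Finset.sum_eq_single a]
  · simp
  · intro b _ hb
    rw [Finsupp.single_eq_of_ne hb]
  · intro h
    exact absurd (Finset.mem_erase.2 ⟨ha, Finset.mem_univ _⟩) h

theorem rd_single_zero : rd (Finsupp.single (0 : Fin (E + 1)) 1) = 0 := by
  classical
  unfold rd
  refine Finset.sum_eq_zero fun b hb => ?_
  rw [Finsupp.single_eq_of_ne (Finset.ne_of_mem_erase hb)]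

theorem rd_zero {α : Fin (E + 1) →₀ ℕ} (h : rd α = 0) : α = Finsupp.single 0 (Finsupp.degree α) := by
  classical
  unfold rd at h
  rw [Finset.sum_eq_zero_iff] at h
  have h1 : ∀ c, c ≠ 0 → α c = 0 := fun c hc => h c (Finset.mem_erase.2 ⟨hc, Finset.mem_univ _⟩)
  have h2 : Finsupp.degree α = α 0 := by
    rw [degree_eq_sum', Finset.sum_eq_single 0]
    · intro b _ hb
      exact h1 b hb
    · intro h
      exact absurd (Finset.mem_univ _) h
  ext c
  rw [h2]
  by_cases hc : c = 0
  · subst hc
    rw [Finsupp.single_eq_same]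
  · rw [h1 c hc, Finsupp.single_eq_of_ne hc]

theorem rd_pos {α : Fin (E + 1) →₀ ℕ} (h : rd α ≠ 0) : ∃ a, a ≠ 0 ∧ α a ≠ 0 := by
  unfold rd at h
  obtain ⟨a, ha, ha'⟩ := Finset.exists_ne_zero_of_sum_ne_zero h
  exact ⟨a, Finset.ne_of_mem_erase ha, ha'⟩

/-- Replacing one variable `a` by `b`. -/
theorem swap_sub {b : Fin (E + 1)} {α : Fin (E + 1) →₀ ℕ} (h : α b ≠ 0) :
    α - Finsupp.single b 1 + Finsupp.single b 1 = α :=
  tsub_add_cancel_of_le (Finsupp.single_le_iff.2 (Nat.one_le_iff_ne_zero.2 h))

theorem gl_top [CharZero K] {m : ℕ} (W : Submodule K (MvPolynomial (Fin (E + 1)) K))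
    (hW : W ≤ homogeneousSubmodule (Fin (E + 1)) K m) (hne : W ≠ ⊥)
    (hst : ∀ a b, ∀ g ∈ W, X b * pderiv a g ∈ W) :
    ∀ α : Fin (E + 1) →₀ ℕ, Finsupp.degree α = m → monomial α (1 : K) ∈ W := by
  classical
  have hdeg : ∀ g ∈ W, ∀ α, coeff α g ≠ 0 → Finsupp.degree α = m := by
    intro g hg α hα
    have h2 := hW hg hα
    rw [Finsupp.degree_eq_weight_one]
    exact h2
  -- the power of the variable 0
  have step1 : ∀ k : ℕ, ∀ g ∈ W, g ≠ 0 → (∀ α, coeff α g ≠ 0 → rd α ≤ k) →
      monomial (Finsupp.single 0 m) (1 : K) ∈ W := by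
    intro k
    induction k with
    | zero =>
      intro g hg hg0 hk
      obtain ⟨α, hα⟩ := MvPolynomial.ne_zero_iff.1 hg0
      have h1 : ∀ β, coeff β g ≠ 0 → β = Finsupp.single 0 m := by
        intro β hβ
        rw [← hdeg g hg β hβ]
        exact rd_zero (Nat.le_zero.1 (hk β hβ))
      have h2 : g = monomial (Finsupp.single 0 m) (coeff (Finsupp.single 0 m) g) := by
        ext β
        rw [coeff_monomial]
        split_ifs with h
        · rw [h]
        · by_contra h3
          exact h (h1 β h3).symm
      have h3 : coeff (Finsupp.single 0 m) g ≠ 0 := by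
        rw [← h1 α hα]
        exact hα
      have h4 : monomial (Finsupp.single 0 m) (1 : K) =
          (coeff (Finsupp.single 0 m) g)⁻¹ • g := by
        conv_rhs => rw [h2]
        rw [smul_monomial, coeff_monomial, if_pos rfl, smul_eq_mul, inv_mul_cancel₀ h3]
      rw [h4]
      exact Submodule.smul_mem _ _ hg
    | succ k ih =>
      intro g hg hg0 hk
      by_cases hall : ∀ α, coeff α g ≠ 0 → rd α ≤ k
      · exact ih g hg hg0 hall
      · push Not at hall
        obtain ⟨β, hβ, hβk⟩ := hall
        have hβk' : rd β = k + 1 := by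
          have := hk β hβ
          omega
        obtain ⟨a, ha, haβ⟩ := rd_pos (α := β) (by omega)
        have hs := swap_sub haβ
        refine ih (X 0 * pderiv a g) (hst a 0 g hg) ?_ ?_
        · -- the coefficient at β - a + 0
          intro h0
          have h1 : coeff (β - Finsupp.single a 1 + Finsupp.single 0 1) (X 0 * pderiv a g) = 0 := by
            rw [h0, coeff_zero]
          rw [add_comm (β - Finsupp.single a 1) (Finsupp.single 0 1), coeff_X_mul, coeff_pderiv,
            hs] at h1
          rcases mul_eq_zero.1 h1 with h2 | h2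
          · exact hβ h2
          · exact Nat.cast_add_one_ne_zero _ h2
        · intro α hα
          rw [coeff_X_pderiv] at hα
          split_ifs at hα with h
          · exact absurd rfl hα
          · have h1 := hk _ (left_ne_zero_of_mul hα)
            have h2 := congrArg rd (swap_sub h)
            rw [rd_add, rd_single_zero, add_zero] at h2
            rw [rd_add, rd_single ha, h2] at h1
            omega
  obtain ⟨g, hg, hg0⟩ := Submodule.exists_mem_ne_zero_of_ne_bot hne
  have hbase : monomial (Finsupp.single 0 m) (1 : K) ∈ W := by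
    refine step1 m g hg hg0 fun α hα => ?_
    have h1 := hdeg g hg α hα
    rw [← h1, degree_eq_sum']
    unfold rd
    exact Finset.sum_le_sum_of_subset (Finset.subset_univ _)
  -- all monomials
  have step2 : ∀ k : ℕ, ∀ α : Fin (E + 1) →₀ ℕ, Finsupp.degree α = m → rd α = k →
      monomial α (1 : K) ∈ W := by
    intro k
    induction k with
    | zero =>
      intro α hα h
      rw [rd_zero h, hα]
      exact hbase
    | succ k ih =>
      intro α hα h
      obtain ⟨a, ha, haα⟩ := rd_pos (α := α) (by omega)
      have hs := swap_sub haα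
      have h1 : monomial (α - Finsupp.single a 1 + Finsupp.single 0 1) (1 : K) ∈ W := by
        refine ih _ ?_ ?_
        · rw [← hα]
          exact degree_xp haα
        · have h2 := congrArg rd hs
          rw [rd_add, rd_single ha] at h2
          rw [rd_add, rd_single_zero]
          omega
      have h2 := hst 0 a _ h1
      have h3 : X a * pderiv 0 (monomial (α - Finsupp.single a 1 + Finsupp.single 0 1) (1 : K)) =
          ((((α - Finsupp.single a 1 + Finsupp.single 0 1 : Fin (E + 1) →₀ ℕ) 0 : ℕ) : K)) •
            monomial α (1 : K) := by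
        rw [pderiv_monomial, one_mul, add_tsub_cancel_right, X, monomial_mul, one_mul,
          smul_monomial, smul_eq_mul, mul_one,
          add_comm (Finsupp.single a 1) (α - Finsupp.single a 1), hs]
      rw [h3] at h2
      have h4 : ((((α - Finsupp.single a 1 + Finsupp.single 0 1 : Fin (E + 1) →₀ ℕ) 0 : ℕ) : K)) ≠
          0 := by
        rw [Finsupp.add_apply, Finsupp.single_eq_same, Nat.cast_add, Nat.cast_one]
        exact Nat.cast_add_one_ne_zero _
      have h5 := Submodule.smul_mem W (((((α - Finsupp.single a 1 + Finsupp.single 0 1 :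
        Fin (E + 1) →₀ ℕ) 0 : ℕ) : K))⁻¹) h2
      rwa [smul_smul, inv_mul_cancel₀ h4, one_smul] at h5
  exact fun α hα => step2 _ α hα rfl

/-- A subspace containing all monomials is everything. -/
theorem eq_homog {m : ℕ} {W : Submodule K (MvPolynomial (Fin (E + 1)) K)}
    (hW : W ≤ homogeneousSubmodule (Fin (E + 1)) K m)
    (h : ∀ α : Fin (E + 1) →₀ ℕ, Finsupp.degree α = m → monomial α (1 : K) ∈ W) :
    W = homogeneousSubmodule (Fin (E + 1)) K m := by
  refine le_antisymm hW fun g hg => ?_
  rw [g.as_sum]
  refine Submodule.sum_mem _ fun α hα => ?_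
  have h1 : Finsupp.degree α = m := by
    rw [Finsupp.degree_eq_weight_one]
    exact hg (mem_support_iff.1 hα)
  have h2 : monomial α (coeff α g) = coeff α g • monomial α (1 : K) := by
    rw [smul_monomial, smul_eq_mul, mul_one]
  rw [h2]
  exact Submodule.smul_mem _ _ (h α h1)

end Pool.Agent.Q78.GW
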