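import Mathlib
import Pool.Agent.Q78.GW.GL
import Pool.Agent.TH167.TT.Semi

set_option autoImplicit false

/-!
# The dimension at generic points
-/

namespace Pool.Agent.Q78.GW

open MvPolynomial Pool.Agent.H932R5

variable {E n : ℕ}

theorem homog_eq_mspan (K : Type) [Field K] (E m : ℕ) :
    homogeneousSubmodule (Fin (E + 1)) K m =
      mspan K (↑((Finset.univ : Finset (Fin (E + 1))).finsuppAntidiag m) :
        Set (Fin (E + 1) →₀ ℕ)) := by
  ext f
  rw [mem_mspan]
  have h1 : ∀ α : Fin (E + 1) →₀ ℕ,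
      α ∈ (↑((Finset.univ : Finset (Fin (E + 1))).finsuppAntidiag m) : Set (Fin (E + 1) →₀ ℕ)) ↔
        Finsupp.degree α = m := by
    intro α
    rw [Finset.mem_coe, Finset.mem_finsuppAntidiag, Finsupp.degree_eq_sum]
    exact ⟨fun h => h.1, fun h => ⟨h, Finset.subset_univ _⟩⟩
  constructor
  · intro hf α hα
    rw [h1, Finsupp.degree_eq_weight_one]
    exact hf hα
  · intro hf α hα
    have h2 := (h1 α).1 (hf α hα)
    rw [Finsupp.degree_eq_weight_one] at h2
    exact h2

theorem finrank_homog (K : Type) [Field K] (E m : ℕ) :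
    Module.finrank K ↥(homogeneousSubmodule (Fin (E + 1)) K m) = (m + E).choose E := by
  rw [homog_eq_mspan, finrank_mspan, Finset.card_finsuppAntidiag_nat_eq_choose,
    Finset.card_univ, Fintype.card_fin]
  have e1 : E + 1 + m - 1 = m + E := by omega
  rw [e1]
  exact Nat.choose_symm_add

/-- The matrix of the conditions. -/
noncomputable def cmt (w : Fin n → ℕ) (d : ℕ) :
    Matrix (Cnd E w) {t // t ∈ dg E (d + 1)} (MvPolynomial (Fin n × Fin (E + 1)) ℚ) :=
  fun q t => coeff q.2.1 (gshift ℚ E n q.1 (monomial t.1 1))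

/-- Evaluation at the points. -/
noncomputable def evq {K : Type} [Field K] [CharZero K] (P : Fin n → Fin (E + 1) → K) :
    MvPolynomial (Fin n × Fin (E + 1)) ℚ →+* K :=
  (aeval (fun q : Fin n × Fin (E + 1) => P q.1 q.2)).toRingHom

theorem map_gshift' {K : Type} [Field K] [CharZero K] (P : Fin n → Fin (E + 1) → K) (i : Fin n)
    (f : MvPolynomial (Fin (E + 1)) ℚ) :
    map (evq P) (gshift ℚ E n i f) = shift (P i) (map (algebraMap ℚ K) f) := by
  have h : (map (evq P)).comp (gshift ℚ E n i) =
      ((shift (P i) : MvPolynomial (Fin (E + 1)) K →+* MvPolynomial (Fin (E + 1)) K)).comp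
        (map (algebraMap ℚ K)) := by
    refine MvPolynomial.ringHom_ext (fun c => ?_) fun j => ?_
    · rw [RingHom.comp_apply, gshift, eval₂Hom_C, RingHom.comp_apply, map_C, RingHom.comp_apply,
        map_C, RingHom.coe_coe, shift_C]
      congr 1
      exact (aeval (R := ℚ) (fun q : Fin n × Fin (E + 1) => P q.1 q.2)).commutes c
    · rw [RingHom.comp_apply, gshift, eval₂Hom_X', map_add, map_X, map_C, RingHom.comp_apply,
        map_X, RingHom.coe_coe, shift_X]
      congr 2
      exact aeval_X _ _
  exact congrArg (fun φ : MvPolynomial (Fin (E + 1)) ℚ →+* MvPolynomial (Fin (E + 1)) K => φ f) h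

theorem cmt_map {K : Type} [Field K] [CharZero K] (P : Fin n → Fin (E + 1) → K)
    (w : Fin n → ℕ) (d : ℕ) (q : Cnd E w) (t : {t // t ∈ dg E (d + 1)}) :
    (cmt w d).map (evq P) q t = coeff q.2.1 (shift (P q.1) (monomial t.1 (1 : K))) := by
  rw [Matrix.map_apply, cmt, ← coeff_map, map_gshift', map_monomial, map_one]

theorem mulVec_cmt {K : Type} [Field K] [CharZero K] (P : Fin n → Fin (E + 1) → K)
    (w : Fin n → ℕ) (d : ℕ) (f : MvPolynomial (Fin (E + 1)) K)
    (hf : ∀ α, d < Finsupp.degree α → coeff α f = 0) (q : Cnd E w) :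
    ((cmt w d).map (evq P)).mulVec (fun t => coeff t.1 f) q =
      coeff q.2.1 (shift (P q.1) f) := by
  classical
  have h1 : f = ∑ t ∈ dg E (d + 1), coeff t f • monomial t (1 : K) := by
    ext α
    rw [coeff_sum]
    simp only [coeff_smul, coeff_monomial, smul_eq_mul, mul_ite, mul_one, mul_zero]
    rw [Finset.sum_ite_eq']
    split_ifs with h
    · rfl
    · rw [mem_dg] at h
      exact hf α (by omega)
  conv_rhs => rw [h1]
  rw [map_sum, coeff_sum, ← Finset.sum_coe_sort]
  rw [Matrix.mulVec, dotProduct]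
  refine Finset.sum_congr rfl fun t _ => ?_
  rw [cmt_map, map_smul, coeff_smul, smul_eq_mul, mul_comm]

theorem lw_rank {K : Type} [Field K] [CharZero K] (P : Fin n → Fin (E + 1) → K)
    (w : Fin n → ℕ) (d : ℕ) :
    Module.finrank K ↥(Lw d P w) + ((cmt w d).map (evq P)).rank = (d + E + 1).choose (E + 1) := by
  classical
  have h1 := LinearMap.finrank_range_add_finrank_ker
    (((cmt (E := E) w d).map (evq P)).mulVecLin)
  rw [Module.finrank_fintype_fun_eq_card, Fintype.card_coe, card_dg] at h1
  have h2 : Module.finrank K (LinearMap.ker (((cmt (E := E) w d).map (evq P)).mulVecLin)) =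
      Module.finrank K ↥(Lw d P w) := by
    symm
    have key : ∀ f : ↥(Lw d P w), (fun t : {t // t ∈ dg E (d + 1)} => coeff t.1 f.1) ∈
        LinearMap.ker (((cmt (E := E) w d).map (evq P)).mulVecLin) := by
      intro f
      rw [LinearMap.mem_ker]
      funext q
      rw [Matrix.mulVecLin_apply, mulVec_cmt P w d f.1 f.2.1]
      exact f.2.2 q.1 _ (mem_dg.1 q.2.2)
    refine LinearEquiv.finrank_eq (LinearEquiv.ofBijective
      { toFun := fun f => ⟨fun t => coeff t.1 f.1, key f⟩
        map_add' := fun f g => by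
          refine Subtype.ext (funext fun t => ?_)
          exact coeff_add _ _ _
        map_smul' := fun a f => by
          refine Subtype.ext (funext fun t => ?_)
          exact coeff_smul _ _ _ } ⟨?_, ?_⟩)
    · intro f g hfg
      have h : ∀ t : {t // t ∈ dg E (d + 1)}, coeff t.1 f.1 = coeff t.1 g.1 := fun t =>
        congrFun (congrArg (fun z : ↥(LinearMap.ker
          (((cmt (E := E) w d).map (evq P)).mulVecLin)) => (z : _ → K)) hfg) t
      refine Subtype.ext (MvPolynomial.ext _ _ fun α => ?_)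
      by_cases hα : α ∈ dg E (d + 1)
      · exact h ⟨α, hα⟩
      · rw [mem_dg] at hα
        rw [f.2.1 α (by omega), g.2.1 α (by omega)]
    · rintro ⟨v, hv⟩
      obtain ⟨f, hf⟩ : ∃ f, f = ∑ t : {t // t ∈ dg E (d + 1)}, v t • monomial t.1 (1 : K) :=
        ⟨_, rfl⟩
      have hc : ∀ α, coeff α f = if h : α ∈ dg E (d + 1) then v ⟨α, h⟩ else 0 := by
        intro α
        rw [hf, coeff_sum]
        simp only [coeff_smul, coeff_monomial, smul_eq_mul, mul_ite, mul_one, mul_zero]
        split_ifs with h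
        · rw [Finset.sum_eq_single ⟨α, h⟩]
          · rw [if_pos rfl]
          · intro b _ hb
            rw [if_neg fun h' => hb (Subtype.ext h')]
          · intro h'
            exact absurd (Finset.mem_univ _) h'
        · refine Finset.sum_eq_zero fun t _ => ?_
          rw [if_neg]
          rintro rfl
          exact h t.2
      have hd : ∀ α, d < Finsupp.degree α → coeff α f = 0 := by
        intro α hα
        rw [hc, dif_neg]
        rw [mem_dg]
        omega
      have hv' : (fun t : {t // t ∈ dg E (d + 1)} => coeff t.1 f) = v := by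
        funext t
        rw [hc, dif_pos t.2]
      have hfm : f ∈ Lw d P w := by
        refine ⟨hd, fun i α hα => ?_⟩
        have h3 := mulVec_cmt P w d f hd ⟨i, ⟨α, mem_dg.2 hα⟩⟩
        rw [hv'] at h3
        rw [← h3]
        exact congrFun (LinearMap.mem_ker.1 hv) _
      exact ⟨⟨f, hfm⟩, Subtype.ext hv'⟩
  rw [h2] at h1
  have e : d + 1 + E = d + E + 1 := by ring
  rw [e] at h1
  rw [← h1, add_comm]
  rfl

/-- The dimension at generic points is the smallest one. -/
theorem semi {K K' : Type} [Field K] [CharZero K] [Field K'] [CharZero K']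
    {P : Fin n → Fin (E + 1) → K}
    (hP : AlgebraicIndependent ℚ (fun q : Fin n × Fin (E + 1) => P q.1 q.2))
    (P' : Fin n → Fin (E + 1) → K') (w : Fin n → ℕ) (d : ℕ) :
    Module.finrank K ↥(Lw d P w) ≤ Module.finrank K' ↥(Lw d P' w) := by
  have h1 := lw_rank P w d
  have h2 := lw_rank P' w d
  have h3 := Pool.Agent.TH167.TT.rank_map_le (cmt (E := E) w d) (evq P) hP (evq P')
  omega

/-- The dimension at generic points does not depend on the points. -/
theorem gen_eq {K K' : Type} [Field K] [CharZero K] [Field K'] [CharZero K']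
    {P : Fin n → Fin (E + 1) → K} {P' : Fin n → Fin (E + 1) → K'}
    (hP : AlgebraicIndependent ℚ (fun q : Fin n × Fin (E + 1) => P q.1 q.2))
    (hP' : AlgebraicIndependent ℚ (fun q : Fin n × Fin (E + 1) => P' q.1 q.2))
    (w : Fin n → ℕ) (d : ℕ) :
    Module.finrank K ↥(Lw d P w) = Module.finrank K' ↥(Lw d P' w) :=
  le_antisymm (semi hP P' w d) (semi hP' P w d)

/-- Permutations of the multiplicities. -/
theorem perm_eq {K : Type} [Field K] [CharZero K] {P : Fin n → Fin (E + 1) → K}
    (hP : AlgebraicIndependent ℚ (fun q : Fin n × Fin (E + 1) => P q.1 q.2))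
    (σ : Equiv.Perm (Fin n)) (w : Fin n → ℕ) (d : ℕ) :
    Module.finrank K ↥(Lw d P (w ∘ σ)) = Module.finrank K ↥(Lw d P w) := by
  have hP' : AlgebraicIndependent ℚ (fun q : Fin n × Fin (E + 1) => P (σ q.1) q.2) := by
    have h := hP.comp (fun q : Fin n × Fin (E + 1) => (σ q.1, q.2)) (fun a b hab => by
      have h1 := Prod.mk.inj hab
      exact Prod.ext (σ.injective h1.1) h1.2)
    exact h
  have h1 : Lw d (fun i => P (σ i)) (w ∘ σ) = Lw d P w := by
    ext f
    rw [mem_Lw, mem_Lw]
    refine and_congr Iff.rfl ⟨fun h i => ?_, fun h i => h (σ i)⟩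
    have h2 := h (σ.symm i)
    simpa using h2
  rw [← h1]
  exact gen_eq hP hP' _ _

/-- Openness of the generic dimension. -/
theorem open_dim (w : Fin n → ℕ) (d : ℕ) {K0 : Type} [Field K0] [CharZero K0]
    {P0 : Fin n → Fin (E + 1) → K0}
    (hP0 : AlgebraicIndependent ℚ (fun q : Fin n × Fin (E + 1) => P0 q.1 q.2)) :
    ∃ F : MvPolynomial (Fin n × Fin (E + 1)) ℚ, F ≠ 0 ∧
      ∀ (K : Type) [Field K] [CharZero K] (P : Fin n → Fin (E + 1) → K), evq P F ≠ 0 →
        Module.finrank K ↥(Lw d P w) = Module.finrank K0 ↥(Lw d P0 w) := by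
  classical
  obtain ⟨r, c, h⟩ := Pool.Agent.TH167.TT.exists_sub ((cmt (E := E) w d).map (evq P0)) rfl
  have hdet : ∀ (K : Type) [Field K] [CharZero K] (P : Fin n → Fin (E + 1) → K),
      (((cmt (E := E) w d).map (evq P)).submatrix r c).det =
        evq P ((cmt (E := E) w d).submatrix r c).det := by
    intro K _ _ P
    rw [RingHom.map_det]
    rfl
  refine ⟨((cmt (E := E) w d).submatrix r c).det, ?_, fun K _ _ P hP => ?_⟩
  · intro h0
    apply h
    rw [hdet, h0, map_zero]
  · rw [← hdet] at hP
    have h1 := Matrix.rank_of_det_ne_zero hP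
    rw [Fintype.card_fin] at h1
    have h2 : (((cmt (E := E) w d).map (evq P)).submatrix r c).rank ≤
        ((cmt (E := E) w d).map (evq P)).rank := Matrix.rank_submatrix_le _ _ _
    rw [h1] at h2
    have h3 := lw_rank P w d
    have h4 := lw_rank P0 w d
    have h5 := semi hP0 P w d
    omega

end Pool.Agent.Q78.GW
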