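import Mathlib
import Pool.Agent.Q78.GW.Gen

set_option autoImplicit false

/-!
# Growth of the spaces of leading forms
-/

namespace Pool.Agent.Q78.GW

open MvPolynomial Pool.Agent.H932R5

variable {K : Type} [Field K] [CharZero K] {E n : ℕ} {P : Fin n → Fin (E + 1) → K}

theorem ex_der (hP : AlgebraicIndependent ℚ (fun q : Fin n × Fin (E + 1) => P q.1 q.2))
    (v : Fin n → Fin (E + 1) → K) : ∃ D : Derivation ℤ K K, ∀ i a, D (P i a) = v i a := by
  obtain ⟨D, hD⟩ := Pool.Agent.H135R2.VS.exists_der hP (fun q => v q.1 q.2)
  exact ⟨D.restrictScalars ℤ, fun i a => hD (i, a)⟩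

/-- Lowering the multiplicity of the point itself. -/
theorem pderiv_mem (hP : AlgebraicIndependent ℚ (fun q : Fin n × Fin (E + 1) => P q.1 q.2))
    {d : ℕ} {w : Fin n → ℕ} {i : Fin n} {t : ℕ} {g : MvPolynomial (Fin (E + 1)) K}
    (hg : g ∈ Wl d P (Function.update w i (t + 1)) i) (a : Fin (E + 1)) :
    pderiv a g ∈ Wl d P (Function.update w i t) i := by
  classical
  obtain ⟨f, hf, rfl⟩ := hg
  obtain ⟨D, hD⟩ := ex_der hP (fun k c => if k = i ∧ c = a then 1 else 0)
  have h1 : dc D f ∈ Lw d P (Function.update w i t) := by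
    refine move D (fun k => ?_) hf
    by_cases hk : k = i
    · subst hk
      right
      rw [Function.update_self, Function.update_self]
      omega
    · left
      rw [Function.update_of_ne hk, Function.update_of_ne hk]
      refine ⟨le_rfl, fun c => ?_⟩
      rw [hD, if_neg fun h => hk h.1]
  rw [Function.update_self]
  have h2 : ld (P i) t (dc D f) = - pderiv a (ld (P i) (t + 1) f) := by
    rw [ld_dc_self D (fun α hα => hf.2 i α (by rwa [Function.update_self])), neg_inj,
      Finset.sum_eq_single a]
    · rw [hD, if_pos ⟨rfl, rfl⟩, C_1, one_mul]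
    · intro c _ hc
      rw [hD, if_neg fun h => hc h.2, map_zero, zero_mul]
    · intro h
      exact absurd (Finset.mem_univ a) h
  have h3 : pderiv a (ld (P i) (t + 1) f) = ld (P i) t (dc D (-f)) := by
    have h4 : dc D (-f) = - dc D f := by
      ext α
      rw [coeff_dc, coeff_neg, coeff_neg, map_neg, coeff_dc]
    rw [h4, map_neg, h2, neg_neg]
  have h5 : dc D (-f) ∈ Lw d P (Function.update w i t) := by
    have h4 : dc D (-f) = - dc D f := by
      ext α
      rw [coeff_dc, coeff_neg, coeff_neg, map_neg, coeff_dc]
    rw [h4]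
    exact Submodule.neg_mem _ h1
  refine ⟨dc D (-f), h5, ?_⟩
  rw [Function.update_self]
  exact h3.symm

theorem shift_inj {p : Fin (E + 1) → K} {f : MvPolynomial (Fin (E + 1)) K}
    (h : shift p f = 0) : f = 0 := by
  rw [← shift_shift p f, h, map_zero]

/-- There are always members of exact multiplicity. -/
theorem Wl_ne_bot (hP : AlgebraicIndependent ℚ (fun q : Fin n × Fin (E + 1) => P q.1 q.2))
    {d : ℕ} {w : Fin n → ℕ} (h : Lw d P w ≠ ⊥) (i : Fin n) : Wl d P w i ≠ ⊥ := by
  classical
  obtain ⟨f, hf, hf0⟩ := Submodule.exists_mem_ne_zero_of_ne_bot h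
  have h1 : shift (P i) f ≠ 0 := fun h' => hf0 (shift_inj h')
  have hex : ∃ t, ∃ α, Finsupp.degree α = t ∧ coeff α (shift (P i) f) ≠ 0 := by
    obtain ⟨α, hα⟩ := MvPolynomial.ne_zero_iff.1 h1
    exact ⟨_, α, rfl, hα⟩
  obtain ⟨α, hα, hα'⟩ := Nat.find_spec hex
  have hmin := fun t => Nat.find_min hex (m := t)
  obtain ⟨t, ht⟩ : ∃ t, t = Nat.find hex := ⟨_, rfl⟩
  rw [← ht] at hα hmin
  have hwt : w i ≤ t := by
    by_contra h2
    exact hα' (hf.2 i α (by omega))
  have hft : f ∈ Lw d P (Function.update w i t) := by
    refine ⟨hf.1, fun k β hβ => ?_⟩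
    by_cases hk : k = i
    · subst hk
      rw [Function.update_self] at hβ
      by_contra h3
      exact hmin _ hβ ⟨β, rfl, h3⟩
    · rw [Function.update_of_ne hk] at hβ
      exact hf.2 k β hβ
  have hstart : Wl d P (Function.update w i t) i ≠ ⊥ := by
    intro h2
    have h3 : ld (P i) (Function.update w i t i) f ∈ Wl d P (Function.update w i t) i :=
      ⟨f, hft, rfl⟩
    rw [h2, Submodule.mem_bot, Function.update_self] at h3
    have h4 : coeff α (ld (P i) t f) = 0 := by rw [h3, coeff_zero]
    rw [coeff_ld, if_pos hα] at h4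
    exact hα' h4
  have hstep : ∀ t, Wl d P (Function.update w i (t + 1)) i ≠ ⊥ →
      Wl d P (Function.update w i t) i ≠ ⊥ := by
    intro t ht hbot
    obtain ⟨g, hg, hg0⟩ := Submodule.exists_mem_ne_zero_of_ne_bot ht
    obtain ⟨β, hβ⟩ := MvPolynomial.ne_zero_iff.1 hg0
    have hdeg : Finsupp.degree β = t + 1 := by
      have h2 := Wl_homog _ _ _ _ hg hβ
      rw [Function.update_self] at h2
      rw [Finsupp.degree_eq_weight_one]
      exact h2
    obtain ⟨a, ha⟩ : ∃ a, β a ≠ 0 := by
      by_contra h2
      push Not at h2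
      have h3 : β = 0 := Finsupp.ext h2
      rw [h3, map_zero] at hdeg
      omega
    have h5 := pderiv_mem hP hg a
    rw [hbot, Submodule.mem_bot] at h5
    have h6 : coeff (β - Finsupp.single a 1) (pderiv a g) = 0 := by rw [h5, coeff_zero]
    rw [coeff_pderiv, swap_sub ha] at h6
    rcases mul_eq_zero.1 h6 with h7 | h7
    · exact hβ h7
    · exact Nat.cast_add_one_ne_zero _ h7
  have hall : ∀ k, k ≤ t - w i → Wl d P (Function.update w i (t - k)) i ≠ ⊥ := by
    intro k
    induction k with
    | zero =>
      intro _
      exact hstart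
    | succ k ih =>
      intro hk
      refine hstep _ ?_
      have e : t - (k + 1) + 1 = t - k := by omega
      rw [e]
      exact ih (by omega)
  have h2 := hall (t - w i) le_rfl
  have e : t - (t - w i) = w i := by omega
  rw [e, Function.update_eq_self] at h2
  exact h2

theorem dc_sum {ι : Type} (s : Finset ι) (D : ι → Derivation ℤ K K)
    (f : MvPolynomial (Fin (E + 1)) K) : dc (∑ k ∈ s, D k) f = ∑ k ∈ s, dc (D k) f := by
  classical
  ext α
  rw [coeff_dc, coeff_sum]
  simp only [coeff_dc]
  induction s using Finset.induction_on with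
  | empty => simp
  | insert k s hk ih => rw [Finset.sum_insert hk, Finset.sum_insert hk, Derivation.add_apply, ih]

/-- If the leading forms at a point are stable under the movements of the other points, then they
are everything. -/
theorem full_of_stable (hP : AlgebraicIndependent ℚ (fun q : Fin n × Fin (E + 1) => P q.1 q.2))
    {d : ℕ} {w : Fin n → ℕ} {i : Fin n} (hne : Wl d P w i ≠ ⊥)
    (hst : ∀ k, k ≠ i → ∀ D : Derivation ℤ K K, (∀ l, l ≠ k → ∀ c, D (P l c) = 0) →
      ∀ g ∈ Wl d P w i, dc D g ∈ Wl d P w i) :
    Wl d P w i = homogeneousSubmodule (Fin (E + 1)) K (w i) := by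
  classical
  refine eq_homog (Wl_homog d P w i) (gl_top _ (Wl_homog d P w i) hne ?_)
  rintro a b _ ⟨f, hf, rfl⟩
  choose D hD using fun k : Fin n =>
    ex_der hP (fun l c => if l = k ∧ c = a then P k b - P i b else 0)
  obtain ⟨D', hD'⟩ : ∃ D', D' = ∑ k ∈ Finset.univ.erase i, D k := ⟨_, rfl⟩
  have hDv : ∀ k c, D' (P k c) = if c = a then P k b - P i b else 0 := by
    intro k c
    have h1 : D' (P k c) = ∑ l ∈ Finset.univ.erase i, D l (P k c) := by
      rw [hD']
      have h2 : ∀ s : Finset (Fin n), (∑ l ∈ s, D l) (P k c) = ∑ l ∈ s, D l (P k c) := by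
        intro s
        induction s using Finset.induction_on with
        | empty => simp
        | insert l s hl ih => rw [Finset.sum_insert hl, Finset.sum_insert hl,
            Derivation.add_apply, ih]
      exact h2 _
    rw [h1]
    by_cases hk : k = i
    · subst hk
      rw [sub_self, ite_self]
      refine Finset.sum_eq_zero fun l hl => ?_
      rw [hD, if_neg]
      rintro ⟨h2, _⟩
      exact Finset.ne_of_mem_erase hl h2.symm
    · rw [Finset.sum_eq_single k]
      · rw [hD]
        by_cases hc : c = a
        · rw [if_pos ⟨rfl, hc⟩, if_pos hc]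
        · rw [if_neg fun h => hc h.2, if_neg hc]
      · intro l _ hl
        rw [hD, if_neg fun h => hl h.1.symm]
      · intro h2
        exact absurd (Finset.mem_erase.2 ⟨hk, Finset.mem_univ _⟩) h2
  have h1 := move_lin D' i a b hDv hf
  have h2 := ld_move_lin D' (P := P) i a b hDv (w i) f
  have h3 : ld (P i) (w i) (dc D' f + (X b - C (P i b)) * pderiv a f) ∈ Wl d P w i :=
    ⟨_, h1, rfl⟩
  rw [h2] at h3
  have h4 : dc D' (ld (P i) (w i) f) ∈ Wl d P w i := by
    rw [hD', dc_sum]
    refine Submodule.sum_mem _ fun k hk => ?_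
    refine hst k (Finset.ne_of_mem_erase hk) (D k) (fun l hl c => ?_) _ ⟨f, hf, rfl⟩
    rw [hD, if_neg fun h => hl h.1]
  have h5 := Submodule.sub_mem _ h3 h4
  rwa [add_sub_cancel_left] at h5

/-- The dimension of the leading forms is invariant under permutations. -/
theorem Wl_perm (hP : AlgebraicIndependent ℚ (fun q : Fin n × Fin (E + 1) => P q.1 q.2))
    {d : ℕ} (w : Fin n → ℕ) (σ : Equiv.Perm (Fin n)) (i : Fin n) :
    Module.finrank K ↥(Wl d P (w ∘ σ) i) = Module.finrank K ↥(Wl d P w (σ i)) := by
  have h1 := finrank_split d P (w ∘ σ) i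
  have h2 := finrank_split d P w (σ i)
  have h3 : Function.update (w ∘ σ) i ((w ∘ σ) i + 1) =
      (Function.update w (σ i) (w (σ i) + 1)) ∘ σ := by
    funext k
    by_cases hk : k = i
    · subst hk
      rw [Function.update_self, Function.comp_apply, Function.comp_apply, Function.update_self]
    · rw [Function.update_of_ne hk, Function.comp_apply, Function.comp_apply,
        Function.update_of_ne]
      intro h
      exact hk (σ.injective h)
  rw [h3, perm_eq hP, perm_eq hP] at h1
  omega

/-- Moving one point. -/
theorem dc_mem {d : ℕ} {v v' : Fin n → ℕ} {i k : Fin n} (hk : k ≠ i) (hi : v' i = v i)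
    (hle : v' ≤ v) (hvk : v' k ≤ v k - 1) {D : Derivation ℤ K K}
    (hD : ∀ l, l ≠ k → ∀ c, D (P l c) = 0) {g : MvPolynomial (Fin (E + 1)) K}
    (hg : g ∈ Wl d P v i) : dc D g ∈ Wl d P v' i := by
  obtain ⟨f, hf, rfl⟩ := hg
  refine ⟨dc D f, move D (fun l => ?_) hf, ?_⟩
  · by_cases hl : l = k
    · subst hl
      exact Or.inr hvk
    · exact Or.inl ⟨hle l, hD l hl⟩
  · rw [hi]
    exact ld_dc D (hD i hk.symm) _ _

/-- The growth of the leading forms: if the multiplicities `u` are lowered to `u'` in such a way
that every multiplicity of `u` outside `i` lies in one of the intervals from `u' k` to `u k`, then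
the leading forms at `i` become more, unless they are everything. -/
theorem grow (hP : AlgebraicIndependent ℚ (fun q : Fin n × Fin (E + 1) => P q.1 q.2))
    {d : ℕ} {u u' : Fin n → ℕ} {i : Fin n} (hle : u' ≤ u) (hi : u' i = u i)
    (hcov : ∀ k, k ≠ i → u k ≠ 0 → ∃ k0, k0 ≠ i ∧ u' k0 < u k0 ∧ u' k0 ≤ u k ∧ u k ≤ u k0)
    (hne : Lw d P u ≠ ⊥) :
    Wl d P u i = homogeneousSubmodule (Fin (E + 1)) K (u i) ∨
      Module.finrank K ↥(Wl d P u i) < Module.finrank K ↥(Wl d P u' i) := by
  classical
  by_contra hcon
  rw [not_or, not_lt] at hcon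
  obtain ⟨hnf, hge⟩ := hcon
  have i1 := Wl_fin d P u' i
  have hW : Wl d P u i = Wl d P u' i := Submodule.eq_of_le_of_finrank_le (Wl_mono hle hi) hge
  refine hnf (full_of_stable hP (Wl_ne_bot hP hne i) ?_)
  intro k hk D hD g hg
  by_cases h0 : u k = 0
  · exact dc_mem hk rfl le_rfl (by omega) hD hg
  · obtain ⟨k0, hk0, h1, h2, h3⟩ := hcov k hk h0
    by_cases hkk : k = k0
    · subst hkk
      rw [hW]
      exact dc_mem hk hi hle (by omega) hD hg
    · have hsw : ∀ v : Fin n → ℕ, Module.finrank K ↥(Wl d P (v ∘ (Equiv.swap k k0)) i) =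
          Module.finrank K ↥(Wl d P v i) := by
        intro v
        rw [Wl_perm hP, Equiv.swap_apply_of_ne_of_ne (Ne.symm hk) (Ne.symm hk0)]
      rcases Nat.lt_or_eq_of_le h3 with h4 | h4
      · -- k has a smaller multiplicity
        obtain ⟨v, hv⟩ : ∃ v, v = u ∘ (Equiv.swap k k0) := ⟨_, rfl⟩
        obtain ⟨y, hy⟩ : ∃ y, y = Function.update u k0 (u k) := ⟨_, rfl⟩
        have hvk : v k = u k0 := by rw [hv, Function.comp_apply, Equiv.swap_apply_left]
        have hvk0 : v k0 = u k := by rw [hv, Function.comp_apply, Equiv.swap_apply_right]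
        have hvl : ∀ l, l ≠ k → l ≠ k0 → v l = u l := fun l hl hl' => by
          rw [hv, Function.comp_apply, Equiv.swap_apply_of_ne_of_ne hl hl']
        have hyk0 : y k0 = u k := by rw [hy, Function.update_self]
        have hyl : ∀ l, l ≠ k0 → y l = u l := fun l hl => by
          rw [hy, Function.update_of_ne hl]
        have hyv : y ≤ v := by
          intro l
          by_cases hl : l = k
          · subst hl
            rw [hyl l hkk, hvk]
            exact h3
          · by_cases hl' : l = k0
            · subst hl'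
              rw [hyk0, hvk0]
            · rw [hyl l hl', hvl l hl hl']
        have huy : u' ≤ y := by
          intro l
          by_cases hl : l = k0
          · subst hl
            rw [hyk0]
            exact h2
          · rw [hyl l hl]
            exact hle l
        have hvi : v i = u i := hvl i (Ne.symm hk) (Ne.symm hk0)
        have hyi : y i = u i := hyl i (Ne.symm hk0)
        have h5 : Wl d P v i ≤ Wl d P y i := Wl_mono hyv (by rw [hvi, hyi])
        have h6 : Wl d P y i ≤ Wl d P u' i := Wl_mono huy (by rw [hi, hyi])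
        have i2 := Wl_fin d P y i
        have h7 : Wl d P v i = Wl d P u' i := by
          refine Submodule.eq_of_le_of_finrank_le (h5.trans h6) ?_
          rw [hv, hsw, hW]
        have h8 : dc D g ∈ Wl d P y i := by
          refine dc_mem (v := v) hk (by rw [hvi, hyi]) hyv ?_ hD ?_
          · rw [hyl k hkk, hvk]
            omega
          · rw [h7, ← hW]
            exact hg
        rw [hW]
        exact h6 h8
      · -- equal multiplicities
        obtain ⟨y, hy⟩ : ∃ y, y = Function.update u k0 (u k0 - 1) := ⟨_, rfl⟩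
        obtain ⟨v, hv⟩ : ∃ v, v = Function.update u k (u k - 1) := ⟨_, rfl⟩
        have hyv : v = y ∘ (Equiv.swap k k0) := by
          funext l
          rw [Function.comp_apply]
          by_cases hl : l = k
          · subst hl
            rw [Equiv.swap_apply_left, hv, Function.update_self, hy, Function.update_self, h4]
          · by_cases hl' : l = k0
            · subst hl'
              rw [Equiv.swap_apply_right, hv, Function.update_of_ne hl, hy,
                Function.update_of_ne hkk, h4]
            · rw [Equiv.swap_apply_of_ne_of_ne hl hl', hv, Function.update_of_ne hl, hy,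
                Function.update_of_ne hl']
        have huy : u' ≤ y := by
          intro l
          rw [hy]
          by_cases hl : l = k0
          · subst hl
            rw [Function.update_self]
            exact Nat.le_sub_one_of_lt h1
          · rw [Function.update_of_ne hl]
            exact hle l
        have hvu : v ≤ u := by
          intro l
          rw [hv]
          by_cases hl : l = k
          · subst hl
            rw [Function.update_self]
            exact Nat.sub_le _ _
          · rw [Function.update_of_ne hl]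
        have hvi : v i = u i := by rw [hv, Function.update_of_ne (Ne.symm hk)]
        have hyi : y i = u i := by rw [hy, Function.update_of_ne (Ne.symm hk0)]
        have h5 : Wl d P y i ≤ Wl d P u' i := Wl_mono huy (by rw [hi, hyi])
        have h6 : Wl d P u i ≤ Wl d P v i := Wl_mono hvu hvi
        have i2 := Wl_fin d P v i
        have h7 : Wl d P u i = Wl d P v i := by
          refine Submodule.eq_of_le_of_finrank_le h6 ?_
          rw [hyv, hsw, hW]
          exact Submodule.finrank_mono h5
        rw [h7]
        refine dc_mem hk hvi hvu ?_ hD hg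
        rw [hv, Function.update_self]

end Pool.Agent.Q78.GW
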