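import Mathlib
import Pool.Agent.Q78.GW.Main

set_option autoImplicit false

/-!
# The number of dependent conditions; lowering the multiplicity at the point itself
-/

namespace Pool.Agent.Q78.GW

open MvPolynomial Pool.Agent.H932R5

section la

variable {K : Type} [Field K] {E : ℕ}

theorem finrank_le_add {V : Type} [AddCommGroup V] [Module K V] (f : V →ₗ[K] V)
    {S T W' : Submodule K V} [FiniteDimensional K ↥S] [FiniteDimensional K ↥W'] (hTS : T ≤ S)
    (hT : ∀ g ∈ T, f g ∈ W') :
    Module.finrank K ↥T + Module.finrank K ↥(S.map f) ≤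
      Module.finrank K ↥W' + Module.finrank K ↥S := by
  have iT : FiniteDimensional K ↥T := Submodule.finiteDimensional_of_le hTS
  have h1 := LinearMap.finrank_range_add_finrank_ker (f.domRestrict S)
  have h2 := LinearMap.finrank_range_add_finrank_ker (f.domRestrict T)
  rw [LinearMap.range_domRestrict] at h1 h2
  have h3 : Module.finrank K ↥(T.map f) ≤ Module.finrank K ↥W' := by
    refine Submodule.finrank_mono ?_
    rintro _ ⟨g, hg, rfl⟩
    exact hT g hg
  have h4 : Module.finrank K ↥(LinearMap.ker (f.domRestrict T)) ≤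
      Module.finrank K ↥(LinearMap.ker (f.domRestrict S)) := by
    have key : ∀ g : LinearMap.ker (f.domRestrict T),
        (⟨g.1.1, hTS g.1.2⟩ : ↥S) ∈ LinearMap.ker (f.domRestrict S) := by
      intro g
      have h5 : f g.1.1 = 0 := g.2
      exact h5
    refine LinearMap.finrank_le_finrank_of_injective
      (f := { toFun := fun g => ⟨⟨g.1.1, hTS g.1.2⟩, key g⟩
              map_add' := fun g h => rfl
              map_smul' := fun a g => rfl }) ?_
    intro g h hgh
    have h5 : g.1.1 = h.1.1 :=
      congrArg (fun z : ↥(LinearMap.ker (f.domRestrict S)) => z.1.1) hgh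
    exact Subtype.ext (Subtype.ext h5)
  omega

variable [CharZero K]

/-- A space of forms of degree `t + 1` whose derivatives lie in a proper space of forms of
degree `t`. -/
theorem la_strict (hE : 1 ≤ E) {t : ℕ} {W W' : Submodule K (MvPolynomial (Fin (E + 1)) K)}
    (hW : W ≤ homogeneousSubmodule (Fin (E + 1)) K (t + 1))
    (hW' : W' ≤ homogeneousSubmodule (Fin (E + 1)) K t)
    (h : ∀ a, ∀ g ∈ W, pderiv a g ∈ W')
    (hne : W' ≠ homogeneousSubmodule (Fin (E + 1)) K t) :
    Module.finrank K ↥W + (t + E).choose E + 1 ≤ Module.finrank K ↥W' + (t + 1 + E).choose E := by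
  classical
  have i0 : FiniteDimensional K ↥(homogeneousSubmodule (Fin (E + 1)) K (t + 1)) :=
    homog_fin (K := K) (E := E) (t + 1)
  have i1 : FiniteDimensional K ↥(homogeneousSubmodule (Fin (E + 1)) K t) :=
    homog_fin (K := K) (E := E) t
  have i2 : FiniteDimensional K ↥W' := Submodule.finiteDimensional_of_le hW'
  obtain ⟨D0, hD0⟩ : ∃ D0 : MvPolynomial (Fin (E + 1)) K →ₗ[K] MvPolynomial (Fin (E + 1)) K,
      ∀ g, D0 g = pderiv 0 g :=
    ⟨(pderiv (0 : Fin (E + 1)) : Derivation K _ _).toLinearMap, fun _ => rfl⟩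
  -- the range
  have hr : (homogeneousSubmodule (Fin (E + 1)) K (t + 1)).map D0 =
      homogeneousSubmodule (Fin (E + 1)) K t := by
    refine eq_homog ?_ fun α hα => ?_
    · rintro _ ⟨g, hg, rfl⟩
      rw [hD0]
      have h1 : g.IsHomogeneous (t + 1) := hg
      exact h1.pderiv
    · have h1 : monomial (α + Finsupp.single 0 1) (1 : K) ∈
          homogeneousSubmodule (Fin (E + 1)) K (t + 1) := by
        refine isHomogeneous_monomial _ ?_
        rw [map_add, Finsupp.degree_single, hα]
      have h2 : pderiv 0 (monomial (α + Finsupp.single 0 1) (1 : K)) ∈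
          (homogeneousSubmodule (Fin (E + 1)) K (t + 1)).map D0 := ⟨_, h1, hD0 _⟩
      rw [pderiv_monomial, one_mul, add_tsub_cancel_right] at h2
      have h4 : ((((α + Finsupp.single 0 1 : Fin (E + 1) →₀ ℕ) 0 : ℕ) : K)) ≠ 0 := by
        rw [Finsupp.add_apply, Finsupp.single_eq_same, Nat.cast_add, Nat.cast_one]
        exact Nat.cast_add_one_ne_zero _
      have h5 := Submodule.smul_mem ((homogeneousSubmodule (Fin (E + 1)) K (t + 1)).map D0)
        (((((α + Finsupp.single 0 1 : Fin (E + 1) →₀ ℕ) 0 : ℕ) : K))⁻¹) h2
      rwa [smul_monomial, smul_eq_mul, inv_mul_cancel₀ h4] at h5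
  obtain ⟨T, hT⟩ : ∃ T, T = homogeneousSubmodule (Fin (E + 1)) K (t + 1) ⊓ W'.comap D0 :=
    ⟨_, rfl⟩
  have hmT : ∀ g, g ∈ T ↔ g ∈ homogeneousSubmodule (Fin (E + 1)) K (t + 1) ∧
      pderiv 0 g ∈ W' := by
    intro g
    rw [hT, Submodule.mem_inf, Submodule.mem_comap, hD0]
  have hTS : T ≤ homogeneousSubmodule (Fin (E + 1)) K (t + 1) := fun g hg => ((hmT g).1 hg).1
  have iT : FiniteDimensional K ↥T := Submodule.finiteDimensional_of_le hTS
  have h1 := finrank_le_add D0 hTS (W' := W') fun g hg => by
    rw [hD0]
    exact ((hmT g).1 hg).2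
  rw [hr, finrank_homog, finrank_homog] at h1
  have h2 : W < T := by
    refine lt_of_le_of_ne (fun g hg => (hmT g).2 ⟨hW hg, h 0 g hg⟩) fun hWT => hne ?_
    -- the second variable
    obtain ⟨b, hb⟩ : ∃ b : Fin (E + 1), b ≠ 0 := ⟨⟨1, by omega⟩, by
      intro h3
      have h4 := congrArg Fin.val h3
      simp at h4⟩
    refine eq_homog hW' ?_
    have key : ∀ q : ℕ, ∀ α : Fin (E + 1) →₀ ℕ, Finsupp.degree α = t → α 0 = q →
        monomial α (1 : K) ∈ W' := by
      intro q
      induction q with
      | zero =>
        intro α hα hq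
        have h3 : monomial (α + Finsupp.single b 1) (1 : K) ∈ T := by
          rw [hmT]
          refine ⟨isHomogeneous_monomial _ ?_, ?_⟩
          · rw [map_add, Finsupp.degree_single, hα]
          · rw [pderiv_monomial, Finsupp.add_apply, hq, Finsupp.single_eq_of_ne hb.symm,
              Nat.cast_add, Nat.cast_zero, add_zero, mul_zero, monomial_zero]
            exact Submodule.zero_mem _
        rw [← hWT] at h3
        have h4 := h b _ h3
        rw [pderiv_monomial, one_mul, add_tsub_cancel_right] at h4
        have h5 : ((((α + Finsupp.single b 1 : Fin (E + 1) →₀ ℕ) b : ℕ) : K)) ≠ 0 := by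
          rw [Finsupp.add_apply, Finsupp.single_eq_same, Nat.cast_add, Nat.cast_one]
          exact Nat.cast_add_one_ne_zero _
        have h6 := Submodule.smul_mem W'
          (((((α + Finsupp.single b 1 : Fin (E + 1) →₀ ℕ) b : ℕ) : K))⁻¹) h4
        rwa [smul_monomial, smul_eq_mul, inv_mul_cancel₀ h5] at h6
      | succ q ih =>
        intro α hα hq
        have hq0 : α 0 ≠ 0 := by omega
        have hs := swap_sub hq0
        have h3 : monomial (α + Finsupp.single b 1) (1 : K) ∈ T := by
          rw [hmT]
          refine ⟨isHomogeneous_monomial _ ?_, ?_⟩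
          · rw [map_add, Finsupp.degree_single, hα]
          · have h7 : α + Finsupp.single b 1 - Finsupp.single 0 1 =
                α - Finsupp.single 0 1 + Finsupp.single b 1 := by
              conv_lhs => rw [← hs]
              rw [add_right_comm, add_tsub_cancel_right]
            rw [pderiv_monomial, h7]
            have h8 : monomial (α - Finsupp.single 0 1 + Finsupp.single b 1) (1 : K) ∈ W' := by
              refine ih _ ?_ ?_
              · rw [degree_xp hq0]
                exact hα
              · rw [Finsupp.add_apply, Finsupp.single_eq_of_ne hb.symm, Finsupp.tsub_apply,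
                  Finsupp.single_eq_same, hq]
                omega
            have h9 := Submodule.smul_mem W'
              (1 * (((α + Finsupp.single b 1 : Fin (E + 1) →₀ ℕ) 0 : ℕ) : K)) h8
            rwa [smul_monomial, smul_eq_mul, mul_one] at h9
        rw [← hWT] at h3
        have h4 := h b _ h3
        rw [pderiv_monomial, one_mul, add_tsub_cancel_right] at h4
        have h5 : ((((α + Finsupp.single b 1 : Fin (E + 1) →₀ ℕ) b : ℕ) : K)) ≠ 0 := by
          rw [Finsupp.add_apply, Finsupp.single_eq_same, Nat.cast_add, Nat.cast_one]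
          exact Nat.cast_add_one_ne_zero _
        have h6 := Submodule.smul_mem W'
          (((((α + Finsupp.single b 1 : Fin (E + 1) →₀ ℕ) b : ℕ) : K))⁻¹) h4
        rwa [smul_monomial, smul_eq_mul, inv_mul_cancel₀ h5] at h6
    exact fun α hα => key _ α hα rfl
  have h3 := Submodule.finrank_lt_finrank_of_lt h2
  omega

end la

variable {K : Type} [Field K] [CharZero K] {E n : ℕ} {P : Fin n → Fin (E + 1) → K}

/-- The number of forms missing among the leading forms. -/
noncomputable def cd (d : ℕ) (P : Fin n → Fin (E + 1) → K) (u : Fin n → ℕ) (i : Fin n) : ℕ :=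
  (u i + E).choose E - Module.finrank K ↥(Wl d P u i)

omit [CharZero K] in
theorem finrank_Wl_le (d : ℕ) (P : Fin n → Fin (E + 1) → K) (u : Fin n → ℕ) (i : Fin n) :
    Module.finrank K ↥(Wl d P u i) ≤ (u i + E).choose E := by
  have := homog_fin (K := K) (E := E) (u i)
  rw [← finrank_homog K E (u i)]
  exact Submodule.finrank_mono (Wl_homog d P u i)

omit [CharZero K] in
theorem cd_add (d : ℕ) (P : Fin n → Fin (E + 1) → K) (u : Fin n → ℕ) (i : Fin n) :
    cd d P u i + Module.finrank K ↥(Wl d P u i) = (u i + E).choose E := by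
  have := finrank_Wl_le d P u i
  unfold cd
  omega

omit [CharZero K] in
theorem cd_mono {d : ℕ} {u u' : Fin n → ℕ} (h : u' ≤ u) {i : Fin n} (hi : u' i = u i) :
    cd d P u' i ≤ cd d P u i := by
  have i1 := Wl_fin d P u' i
  have h1 := Submodule.finrank_mono (Wl_mono (P := P) (d := d) h hi)
  unfold cd
  rw [hi]
  omega

theorem cd_perm (hP : AlgebraicIndependent ℚ (fun q : Fin n × Fin (E + 1) => P q.1 q.2))
    (d : ℕ) (u : Fin n → ℕ) (σ : Equiv.Perm (Fin n)) (i : Fin n) :
    cd d P (u ∘ σ) i = cd d P u (σ i) := by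
  unfold cd
  rw [Wl_perm hP, Function.comp_apply]

omit [CharZero K] in
theorem full_iff {d : ℕ} {u : Fin n → ℕ} {i : Fin n} :
    Wl d P u i = homogeneousSubmodule (Fin (E + 1)) K (u i) ↔ cd d P u i = 0 := by
  have := homog_fin (K := K) (E := E) (u i)
  have h2 := cd_add d P u i
  constructor
  · intro h
    rw [h, finrank_homog] at h2
    omega
  · intro h
    refine Submodule.eq_of_le_of_finrank_le (Wl_homog d P u i) ?_
    rw [finrank_homog]
    omega

theorem cd_lt (hP : AlgebraicIndependent ℚ (fun q : Fin n × Fin (E + 1) => P q.1 q.2))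
    {d : ℕ} {u : Fin n → ℕ} (i : Fin n) (hne : Lw d P u ≠ ⊥) : cd d P u i < (u i + E).choose E := by
  have h1 := cd_add d P u i
  have i1 := Wl_fin d P u i
  have h2 : Module.finrank K ↥(Wl d P u i) ≠ 0 := fun h =>
    Wl_ne_bot hP hne i (Submodule.finrank_eq_zero.1 h)
  omega

/-- The growth in terms of the missing forms. -/
theorem cd_grow (hP : AlgebraicIndependent ℚ (fun q : Fin n × Fin (E + 1) => P q.1 q.2))
    {d : ℕ} {u u' : Fin n → ℕ} {i : Fin n} (hle : u' ≤ u) (hi : u' i = u i)
    (hcov : ∀ k, k ≠ i → u k ≠ 0 → ∃ k0, k0 ≠ i ∧ u' k0 < u k0 ∧ u' k0 ≤ u k ∧ u k ≤ u k0)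
    (hne : Lw d P u ≠ ⊥) : cd d P u i = 0 ∨ cd d P u' i < cd d P u i := by
  rcases grow hP hle hi hcov hne with h | h
  · exact Or.inl (full_iff.1 h)
  · right
    have h1 := cd_add d P u i
    have h2 := cd_add d P u' i
    rw [hi] at h2
    omega

/-- Lowering the multiplicity at the point itself. -/
theorem cd_low (hP : AlgebraicIndependent ℚ (fun q : Fin n × Fin (E + 1) => P q.1 q.2))
    {d : ℕ} {u : Fin n → ℕ} {i : Fin n} {t : ℕ} (hne : Lw d P (Function.update u i (t + 1)) ≠ ⊥) :
    cd d P (Function.update u i t) i = 0 ∨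
      cd d P (Function.update u i t) i < cd d P (Function.update u i (t + 1)) i := by
  have hle : Function.update u i t ≤ Function.update u i (t + 1) := by
    intro k
    by_cases hk : k = i
    · subst hk
      rw [Function.update_self, Function.update_self]
      exact Nat.le_succ t
    · rw [Function.update_of_ne hk, Function.update_of_ne hk]
  have hne' : Lw d P (Function.update u i t) ≠ ⊥ := by
    intro h
    exact hne (le_bot_iff.1 ((Lw_mono hle).trans (le_of_eq h)))
  rcases Nat.eq_zero_or_pos E with hE | hE
  · left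
    have h1 := cd_lt hP i hne'
    subst hE
    rw [Nat.choose_zero_right] at h1
    omega
  · by_cases hf : cd d P (Function.update u i t) i = 0
    · exact Or.inl hf
    · right
      have h1 := la_strict hE (t := t) (W := Wl d P (Function.update u i (t + 1)) i)
        (W' := Wl d P (Function.update u i t) i) ?_ ?_ (fun a g hg => pderiv_mem hP hg a) ?_
      · have h2 := cd_add d P (Function.update u i (t + 1)) i
        have h3 := cd_add d P (Function.update u i t) i
        rw [Function.update_self] at h2 h3
        omega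
      · have h4 := Wl_homog d P (Function.update u i (t + 1)) i
        rwa [Function.update_self] at h4
      · have h4 := Wl_homog d P (Function.update u i t) i
        rwa [Function.update_self] at h4
      · intro h4
        apply hf
        rw [← full_iff, Function.update_self]
        exact h4

end Pool.Agent.Q78.GW
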