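import Mathlib
import Pool.Agent.Q78.GW.Lower

set_option autoImplicit false

/-!
# The superabundance
-/

namespace Pool.Agent.Q78.GW

open MvPolynomial Pool.Agent.H932R5

section count

variable {K : Type} [Field K] [CharZero K] {E n : ℕ}

theorem finrank_zero (d : ℕ) (P : Fin n → Fin (E + 1) → K) :
    Module.finrank K ↥(Lw d P (fun _ => 0)) = (d + E + 1).choose (E + 1) := by
  have h1 := lw_rank P (fun _ => 0) d
  have h2 := Matrix.rank_le_card_height ((cmt (E := E) (fun _ : Fin n => 0) d).map (evq P))
  rw [card_Cnd] at h2
  have h3 : ∑ i : Fin n, (0 + E).choose (E + 1) = 0 := by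
    refine Finset.sum_eq_zero fun i _ => ?_
    exact Nat.choose_eq_zero_of_lt (by omega)
  rw [h3] at h2
  omega

omit [CharZero K] in
theorem sum_succ (u : Fin n → ℕ) (i : Fin n) :
    ∑ k, (Function.update u i (u i + 1) k + E).choose (E + 1) =
      ∑ k, (u k + E).choose (E + 1) + (u i + E).choose E := by
  classical
  rw [← Finset.add_sum_erase Finset.univ
      (fun k => (Function.update u i (u i + 1) k + E).choose (E + 1)) (Finset.mem_univ i),
    ← Finset.add_sum_erase Finset.univ (fun k => (u k + E).choose (E + 1)) (Finset.mem_univ i)]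
  show (Function.update u i (u i + 1) i + E).choose (E + 1) +
    ∑ k ∈ Finset.univ.erase i, (Function.update u i (u i + 1) k + E).choose (E + 1) =
    (u i + E).choose (E + 1) + ∑ k ∈ Finset.univ.erase i, (u k + E).choose (E + 1) +
      (u i + E).choose E
  rw [Function.update_self]
  have h1 : ∑ k ∈ Finset.univ.erase i, (Function.update u i (u i + 1) k + E).choose (E + 1) =
      ∑ k ∈ Finset.univ.erase i, (u k + E).choose (E + 1) := by
    refine Finset.sum_congr rfl fun k hk => ?_
    rw [Function.update_of_ne (Finset.ne_of_mem_erase hk)]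
  rw [h1]
  have h2 : (u i + 1 + E).choose (E + 1) = (u i + E).choose E + (u i + E).choose (E + 1) := by
    rw [show u i + 1 + E = (u i + E) + 1 by ring, Nat.choose_succ_succ]
  rw [h2]
  ring

end count

variable {K : Type} [Field K] [CharZero K] {E n : ℕ} {P : Fin n → Fin (E + 1) → K}

/-- The superabundance. -/
noncomputable def hs (d : ℕ) (P : Fin n → Fin (E + 1) → K) (w : Fin n → ℕ) : ℤ :=
  (Module.finrank K ↥(Lw d P w) : ℤ) + ∑ k, ((w k + E).choose (E + 1) : ℤ) -
    ((d + E + 1).choose (E + 1) : ℤ)

theorem hs_zero (d : ℕ) (P : Fin n → Fin (E + 1) → K) : hs d P (fun _ => 0) = 0 := by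
  unfold hs
  rw [finrank_zero, Finset.sum_eq_zero]
  · ring
  · intro i _
    have : (0 + E).choose (E + 1) = 0 := Nat.choose_eq_zero_of_lt (by omega)
    exact_mod_cast this

omit [CharZero K] in
theorem hs_succ (d : ℕ) (P : Fin n → Fin (E + 1) → K) (u : Fin n → ℕ) (i : Fin n) :
    hs d P (Function.update u i (u i + 1)) = hs d P u + (cd d P u i : ℤ) := by
  have h1 := finrank_split d P u i
  have h2 := sum_succ (E := E) u i
  have h3 := cd_add d P u i
  unfold hs
  have h2' : ∑ k, ((Function.update u i (u i + 1) k + E).choose (E + 1) : ℤ) =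
      ∑ k, ((u k + E).choose (E + 1) : ℤ) + ((u i + E).choose E : ℤ) := by
    exact_mod_cast h2
  rw [h2']
  have h1' : (Module.finrank K ↥(Wl d P u i) : ℤ) +
      (Module.finrank K ↥(Lw d P (Function.update u i (u i + 1))) : ℤ) =
      (Module.finrank K ↥(Lw d P u) : ℤ) := by exact_mod_cast h1
  have h3' : (cd d P u i : ℤ) + (Module.finrank K ↥(Wl d P u i) : ℤ) =
      ((u i + E).choose E : ℤ) := by exact_mod_cast h3
  linarith

/-- Lowering the multiplicities of the points of `S` by one. -/
def dcr (u : Fin n → ℕ) (S : Finset (Fin n)) : Fin n → ℕ := fun k => if k ∈ S then u k - 1 else u k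

theorem dcr_le (u : Fin n → ℕ) (S : Finset (Fin n)) : dcr u S ≤ u := by
  intro k
  unfold dcr
  split_ifs
  · exact Nat.sub_le _ _
  · exact le_rfl

theorem dcr_mem {u : Fin n → ℕ} {S : Finset (Fin n)} {k : Fin n} (h : k ∈ S) :
    dcr u S k = u k - 1 := by
  unfold dcr
  rw [if_pos h]

theorem dcr_notMem {u : Fin n → ℕ} {S : Finset (Fin n)} {k : Fin n} (h : k ∉ S) :
    dcr u S k = u k := by
  unfold dcr
  rw [if_neg h]

omit [CharZero K] in
theorem hs_dcr (d : ℕ) (P : Fin n → Fin (E + 1) → K) (u : Fin n → ℕ) (S : Finset (Fin n))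
    (hS : ∀ k ∈ S, u k ≠ 0) :
    hs d P u ≤ hs d P (dcr u S) + ∑ k ∈ S, (cd d P (Function.update u k (u k - 1)) k : ℤ) := by
  classical
  induction S using Finset.induction_on with
  | empty =>
    have h : dcr u ∅ = u := by
      funext k
      exact dcr_notMem (Finset.notMem_empty k)
    rw [h, Finset.sum_empty, add_zero]
  | insert k S hk ih =>
    have h1 := ih fun l hl => hS l (Finset.mem_insert_of_mem hl)
    have hk0 := hS k (Finset.mem_insert_self k S)
    obtain ⟨v, hv⟩ : ∃ v, v = dcr u (insert k S) := ⟨_, rfl⟩
    have hvk : v k = u k - 1 := by rw [hv, dcr_mem (Finset.mem_insert_self k S)]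
    have h2 : Function.update v k (v k + 1) = dcr u S := by
      funext l
      by_cases hl : l = k
      · subst hl
        rw [Function.update_self, hvk, dcr_notMem hk]
        omega
      · rw [Function.update_of_ne hl, hv]
        by_cases hlS : l ∈ S
        · rw [dcr_mem (Finset.mem_insert_of_mem hlS), dcr_mem hlS]
        · rw [dcr_notMem hlS, dcr_notMem]
          intro h3
          rcases Finset.mem_insert.1 h3 with h3 | h3
          · exact hl h3
          · exact hlS h3
    have h3 := hs_succ d P v k
    rw [h2] at h3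
    have h4 : cd d P v k ≤ cd d P (Function.update u k (u k - 1)) k := by
      refine cd_mono (fun l => ?_) ?_
      · by_cases hl : l = k
        · subst hl
          rw [Function.update_self, hvk]
        · rw [Function.update_of_ne hl, hv]
          exact dcr_le u _ l
      · rw [Function.update_self, hvk]
    rw [Finset.sum_insert hk, ← hv]
    have h4' : (cd d P v k : ℤ) ≤ (cd d P (Function.update u k (u k - 1)) k : ℤ) := by
      exact_mod_cast h4
    linarith

section groups

variable {ι : Type} [Fintype ι] [DecidableEq ι] (lab : Fin n → ι)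

/-- The superabundance of a nonempty system whose multiplicities are divided into groups, each
group with at most two values `z` and `z - 1`. -/
theorem groups (hP : AlgebraicIndependent ℚ (fun q : Fin n × Fin (E + 1) => P q.1 q.2)) (d : ℕ) :
    ∀ (m : ℕ) (u : Fin n → ℕ) (z b : ι → ℕ), ∑ k, u k = m →
      (∀ k, u k = z (lab k) ∨ u k + 1 = z (lab k)) →
      (∀ γ, z γ ≠ 0 → ∃ k, lab k = γ ∧ u k = z γ) →
      (∀ k, u k = z (lab k) → u k ≠ 0 →
        cd d P (Function.update u k (u k - 1)) k ≤ b (lab k)) →
      Lw d P u ≠ ⊥ →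
      hs d P u ≤ ∑ γ, ((b γ + 1).choose 2 : ℤ) := by
  classical
  intro m
  induction m using Nat.strong_induction_on with
  | _ m ih =>
  intro u z b hm hz htop hb hne
  by_cases hall : ∀ γ, z γ = 0
  · have h1 : u = fun _ => 0 := by
      funext k
      rcases hz k with h | h
      · rw [h, hall]
      · rw [hall] at h
        omega
    rw [h1, hs_zero]
    exact Finset.sum_nonneg fun γ _ => Nat.cast_nonneg _
  · push Not at hall
    obtain ⟨γ0, hγ0⟩ := hall
    obtain ⟨k00, -, -⟩ := htop γ0 hγ0
    have hs0 : ∀ γ, ∃ k, z γ ≠ 0 → lab k = γ ∧ u k = z γ := by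
      intro γ
      by_cases h : z γ = 0
      · exact ⟨k00, fun h' => absurd h h'⟩
      · obtain ⟨k, hk⟩ := htop γ h
        exact ⟨k, fun _ => hk⟩
    choose s hs1 using hs0
    obtain ⟨S, hSd⟩ : ∃ S, S = Finset.univ.filter fun k : Fin n => z (lab k) ≠ 0 ∧ s (lab k) = k :=
      ⟨_, rfl⟩
    have hS : ∀ k, k ∈ S ↔ z (lab k) ≠ 0 ∧ s (lab k) = k := by
      intro k
      rw [hSd, Finset.mem_filter]
      exact ⟨fun h => h.2, fun h => ⟨Finset.mem_univ _, h⟩⟩
    have hsS : ∀ γ, z γ ≠ 0 → s γ ∈ S := by
      intro γ h
      rw [hS, (hs1 γ h).1]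
      exact ⟨h, rfl⟩
    have hSu : ∀ k ∈ S, u k = z (lab k) ∧ u k ≠ 0 := by
      intro k hk
      obtain ⟨h1, h2⟩ := (hS k).1 hk
      have h3 := (hs1 _ h1).2
      rw [h2] at h3
      exact ⟨h3, h3 ▸ h1⟩
    obtain ⟨u', hu'⟩ : ∃ u', u' = dcr u S := ⟨_, rfl⟩
    have hule : u' ≤ u := by
      rw [hu']
      exact dcr_le u S
    have humem : ∀ k ∈ S, u' k + 1 = u k := by
      intro k hk
      rw [hu', dcr_mem hk]
      have := (hSu k hk).2
      omega
    have hunot : ∀ k, k ∉ S → u' k = u k := fun k hk => by rw [hu', dcr_notMem hk]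
    obtain ⟨z', hz'⟩ : ∃ z' : ι → ℕ, z' = fun γ =>
        if ∀ k, lab k = γ → u' k + 1 = z γ then z γ - 1 else z γ := ⟨_, rfl⟩
    have hz'1 : ∀ γ, (∀ k, lab k = γ → u' k + 1 = z γ) → z' γ = z γ - 1 := by
      intro γ h
      rw [hz']
      exact if_pos h
    have hz'2 : ∀ γ, (¬ ∀ k, lab k = γ → u' k + 1 = z γ) → z' γ = z γ := by
      intro γ h
      rw [hz']
      exact if_neg h
    have hval : ∀ k, u' k = z (lab k) ∨ u' k + 1 = z (lab k) := by
      intro k
      by_cases hk : k ∈ S
      · right
        rw [humem k hk]
        exact (hSu k hk).1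
      · rw [hunot k hk]
        exact hz k
    have hne' : Lw d P u' ≠ ⊥ := by
      intro h
      exact hne (le_bot_iff.1 ((Lw_mono hule).trans (le_of_eq h)))
    have hsum : ∑ k, u' k < m := by
      rw [← hm]
      refine Finset.sum_lt_sum (fun k _ => hule k) ⟨s γ0, Finset.mem_univ _, ?_⟩
      have := humem _ (hsS γ0 hγ0)
      omega
    -- the new bounds
    have hb' : ∀ i, u' i = z' (lab i) → u' i ≠ 0 →
        cd d P (Function.update u' i (u' i - 1)) i ≤ b (lab i) - 1 := by
      intro i hi hi0
      by_cases hex : ∀ k, lab k = lab i → u' k + 1 = z (lab i)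
      · -- the group is exhausted
        have h1 := hz'1 _ hex
        have h2 := hex i rfl
        have hzi : z (lab i) ≠ 0 := by omega
        obtain ⟨h3, h4⟩ := hs1 (lab i) hzi
        obtain ⟨i0, hi0'⟩ : ∃ i0, i0 = s (lab i) := ⟨_, rfl⟩
        rw [← hi0'] at h3 h4
        have h5 : i0 ∈ S := by
          rw [hi0']
          exact hsS _ hzi
        -- the level u' i at i
        obtain ⟨y, hy⟩ : ∃ y, y = Function.update u i0 (u i0 - 1) := ⟨_, rfl⟩
        have hyi0 : y i0 = u' i := by
          rw [hy, Function.update_self]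
          omega
        have hyi : y i = u' i := by
          by_cases h6 : i = i0
          · rw [h6, hyi0, ← h6]
          · rw [hy, Function.update_of_ne h6]
            have h7 : i ∉ S := by
              intro h8
              exact h6 (((hS i).1 h8).2.symm.trans hi0'.symm)
            exact (hunot i h7).symm
        have huy : u' ≤ y := by
          intro l
          by_cases hl : l = i0
          · rw [hl, hy, Function.update_self]
            have := humem i0 h5
            exact Nat.le_sub_one_of_lt (by omega)
          · rw [hy, Function.update_of_ne hl]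
            exact hule l
        have h6 : cd d P u' i ≤ cd d P y i := cd_mono huy hyi.symm
        have h7 : cd d P y i = cd d P y i0 := by
          have h8 := cd_perm hP d y (Equiv.swap i i0) i
          rw [Equiv.swap_apply_left] at h8
          rw [← h8]
          congr 1
          funext l
          rw [Function.comp_apply]
          by_cases hl : l = i
          · rw [hl, Equiv.swap_apply_left, hyi, hyi0]
          · by_cases hl' : l = i0
            · rw [hl', Equiv.swap_apply_right, hyi, hyi0]
            · rw [Equiv.swap_apply_of_ne_of_ne hl hl']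
        have h8 : cd d P y i0 ≤ b (lab i) := by
          rw [hy, ← h3]
          refine hb i0 ?_ ?_
          · rw [h4, h3]
          · rw [h4]
            exact hzi
        have h9 : Function.update u' i (u' i - 1 + 1) = u' := by
          have e : u' i - 1 + 1 = u' i := by omega
          rw [e, Function.update_eq_self]
        have h10 := cd_low hP (d := d) (u := u') (i := i) (t := u' i - 1) (by rwa [h9])
        rw [h9] at h10
        rcases h10 with h10 | h10 <;> omega
      · -- the group is not exhausted
        have h1 := hz'2 _ hex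
        rw [h1] at hi
        have hiS : i ∉ S := by
          intro h2
          have h3 := humem i h2
          have h4 := (hSu i h2).1
          omega
        have hui := hunot i hiS
        obtain ⟨v0, hv0⟩ : ∃ v0, v0 = Function.update u i (u i - 1) := ⟨_, rfl⟩
        obtain ⟨v, hv⟩ : ∃ v, v = Function.update u' i (u' i - 1) := ⟨_, rfl⟩
        have hvi : v i = u i - 1 := by rw [hv, Function.update_self, hui]
        have hv0i : v0 i = u i - 1 := by rw [hv0, Function.update_self]
        have hvl : ∀ l, l ≠ i → v l = u' l := fun l hl => by rw [hv, Function.update_of_ne hl]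
        have hv0l : ∀ l, l ≠ i → v0 l = u l := fun l hl => by rw [hv0, Function.update_of_ne hl]
        have hle : v ≤ v0 := by
          intro l
          by_cases hl : l = i
          · rw [hl, hvi, hv0i]
          · rw [hvl l hl, hv0l l hl]
            exact hule l
        have hv0u : v0 ≤ u := by
          intro l
          by_cases hl : l = i
          · rw [hl, hv0i]
            exact Nat.sub_le _ _
          · rw [hv0l l hl]
        have hnev : Lw d P v0 ≠ ⊥ := by
          intro h
          exact hne (le_bot_iff.1 ((Lw_mono hv0u).trans (le_of_eq h)))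
        have hbi : cd d P v0 i ≤ b (lab i) := by
          rw [hv0]
          exact hb i (hui ▸ hi) (hui ▸ hi0)
        have h2 := cd_grow hP (u := v0) (u' := v) (i := i) hle (by rw [hvi, hv0i]) ?_ hnev
        · rw [← hv]
          rcases h2 with h2 | h2
          · have h3 : cd d P v i ≤ cd d P v0 i := cd_mono hle (by rw [hvi, hv0i])
            omega
          · omega
        · intro k hk hk0
          rw [hv0l k hk] at hk0 ⊢
          have hzk : z (lab k) ≠ 0 := by
            rcases hz k with h | h
            · rw [← h]
              exact hk0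
            · omega
          obtain ⟨h3, h4⟩ := hs1 (lab k) hzk
          have h5 := hsS _ hzk
          obtain ⟨k0, hk0'⟩ : ∃ k0, k0 = s (lab k) := ⟨_, rfl⟩
          rw [← hk0'] at h3 h4 h5
          have h6 : k0 ≠ i := by
            intro h7
            exact hiS (h7 ▸ h5)
          refine ⟨k0, h6, ?_, ?_, ?_⟩
          · rw [hvl k0 h6, hv0l k0 h6]
            have := humem k0 h5
            omega
          · rw [hvl k0 h6]
            have := humem k0 h5
            rcases hz k with h | h <;> omega
          · rw [hv0l k0 h6]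
            rcases hz k with h | h <;> omega
    have h1 := ih _ hsum u' z' (fun γ => b γ - 1) rfl ?_ ?_ hb' hne'
    · have h2 := hs_dcr d P u S fun k hk => (hSu k hk).2
      rw [← hu'] at h2
      have h3 : ∑ k ∈ S, (cd d P (Function.update u k (u k - 1)) k : ℤ) ≤ ∑ γ, (b γ : ℤ) := by
        have h4 : ∑ k ∈ S, (cd d P (Function.update u k (u k - 1)) k : ℤ) ≤
            ∑ k ∈ S, (b (lab k) : ℤ) := by
          refine Finset.sum_le_sum fun k hk => ?_
          have h5 := hSu k hk
          exact_mod_cast hb k h5.1 h5.2
        have h5 : ∑ k ∈ S, (b (lab k) : ℤ) = ∑ γ ∈ S.image lab, (b γ : ℤ) := by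
          rw [Finset.sum_image]
          intro k hk l hl hkl
          have h6 := ((hS k).1 hk).2
          have h7 := ((hS l).1 hl).2
          rw [← h6, ← h7, hkl]
        have h6 : ∑ γ ∈ S.image lab, (b γ : ℤ) ≤ ∑ γ, (b γ : ℤ) :=
          Finset.sum_le_sum_of_subset_of_nonneg (Finset.subset_univ _)
            fun γ _ _ => Nat.cast_nonneg _
        linarith
      have h4 : ∑ γ, ((b γ - 1 + 1).choose 2 : ℤ) + ∑ γ, (b γ : ℤ) =
          ∑ γ, ((b γ + 1).choose 2 : ℤ) := by
        rw [← Finset.sum_add_distrib]
        refine Finset.sum_congr rfl fun γ _ => ?_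
        have h5 : (b γ - 1 + 1).choose 2 + b γ = (b γ + 1).choose 2 := by
          rcases Nat.eq_zero_or_pos (b γ) with h | h
          · rw [h]
            rfl
          · have e : b γ - 1 + 1 = b γ := by omega
            rw [e, Nat.choose_succ_succ' (b γ) 1, Nat.choose_one_right, add_comm]
        exact_mod_cast h5
      linarith
    · intro k
      by_cases hex : ∀ l, lab l = lab k → u' l + 1 = z (lab k)
      · rw [hz'1 _ hex]
        left
        have := hex k rfl
        omega
      · rw [hz'2 _ hex]
        exact hval k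
    · intro γ hγ
      by_cases hex : ∀ l, lab l = γ → u' l + 1 = z γ
      · rw [hz'1 _ hex] at hγ ⊢
        have hzγ : z γ ≠ 0 := by omega
        refine ⟨s γ, (hs1 γ hzγ).1, ?_⟩
        have := hex _ (hs1 γ hzγ).1
        omega
      · rw [hz'2 _ hex] at hγ ⊢
        push Not at hex
        obtain ⟨l, hl, hl'⟩ := hex
        refine ⟨l, hl, ?_⟩
        rcases hval l with h | h
        · rw [h, hl]
        · rw [hl] at h
          exact absurd h hl'

end groups

end Pool.Agent.Q78.GW
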