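import Mathlib
import Pool.Agent.Q78.GW.Round

set_option autoImplicit false

/-!
# Bounds for the superabundance, and raising multiplicities
-/

namespace Pool.Agent.Q78.GW

open MvPolynomial Pool.Agent.H932R5

variable {K : Type} [Field K] [CharZero K] {E n : ℕ} {P : Fin n → Fin (E + 1) → K}

theorem cd_zero_of_one (hP : AlgebraicIndependent ℚ (fun q : Fin n × Fin (E + 1) => P q.1 q.2))
    {d : ℕ} {u : Fin n → ℕ} {i : Fin n} (hne : Lw d P u ≠ ⊥) (h : u i = 0) : cd d P u i = 0 := by
  have h1 := cd_lt hP i hne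
  rw [h, zero_add, Nat.choose_self] at h1
  omega

/-- The superabundance of a nonempty system: every multiplicity which is at least two lies in the
set `Y`, or its successor does. -/
theorem hs_le (hP : AlgebraicIndependent ℚ (fun q : Fin n × Fin (E + 1) => P q.1 q.2)) (d : ℕ)
    (w : Fin n → ℕ) (Y : Finset ℕ) (hY : ∀ k, 2 ≤ w k → w k ∈ Y ∨ w k + 1 ∈ Y)
    (hne : Lw d P w ≠ ⊥) :
    hs d P w ≤ ∑ y ∈ Y, (((y - 1 + E).choose E).choose 2 : ℤ) := by
  classical
  obtain ⟨Y', hY'⟩ : ∃ Y', Y' = insert 1 Y := ⟨_, rfl⟩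
  have h1Y : 1 ∈ Y' := hY' ▸ Finset.mem_insert_self _ _
  have hYY : ∀ y ∈ Y, y ∈ Y' := fun y hy => hY' ▸ Finset.mem_insert_of_mem hy
  have hex : ∀ k, ∃ y : ↥Y', w k = y.1 ∨ w k + 1 = y.1 := by
    intro k
    by_cases h : 2 ≤ w k
    · rcases hY k h with h1 | h1
      · exact ⟨⟨w k, hYY _ h1⟩, Or.inl rfl⟩
      · exact ⟨⟨w k + 1, hYY _ h1⟩, Or.inr rfl⟩
    · refine ⟨⟨1, h1Y⟩, ?_⟩
      show w k = 1 ∨ w k + 1 = 1
      omega
  choose lab hlab using hex
  obtain ⟨z, hz⟩ : ∃ z : ↥Y' → ℕ, z = fun y => if ∃ k, lab k = y ∧ w k = y.1 then y.1 else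
      if ∃ k, lab k = y then y.1 - 1 else 0 := ⟨_, rfl⟩
  have hz1 : ∀ y, (∃ k, lab k = y ∧ w k = y.1) → z y = y.1 := fun y h => by
    rw [hz]
    exact if_pos h
  have hz2 : ∀ y, (¬ ∃ k, lab k = y ∧ w k = y.1) → (∃ k, lab k = y) → z y = y.1 - 1 :=
    fun y h h' => by
    rw [hz]
    show (if ∃ k, lab k = y ∧ w k = y.1 then y.1 else
      if ∃ k, lab k = y then y.1 - 1 else 0) = y.1 - 1
    rw [if_neg h, if_pos h']
  have hz3 : ∀ y, (¬ ∃ k, lab k = y) → z y = 0 := fun y h => by
    rw [hz]
    show (if ∃ k, lab k = y ∧ w k = y.1 then y.1 else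
      if ∃ k, lab k = y then y.1 - 1 else 0) = 0
    rw [if_neg fun h' => h ⟨h'.choose, h'.choose_spec.1⟩, if_neg h]
  have h1 := groups lab hP d (∑ k, w k) w z (fun y => (y.1 - 1 + E).choose E - 1) rfl ?_ ?_ ?_ hne
  · refine h1.trans (le_of_eq ?_)
    have h2 : ∀ y : ↥Y', ((((y.1 - 1 + E).choose E - 1 + 1).choose 2 : ℕ) : ℤ) =
        (((y.1 - 1 + E).choose E).choose 2 : ℤ) := by
      intro y
      have h3 : 0 < (y.1 - 1 + E).choose E := Nat.choose_pos (by omega)
      have e : (y.1 - 1 + E).choose E - 1 + 1 = (y.1 - 1 + E).choose E := by omega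
      rw [e]
    rw [Finset.sum_congr rfl fun y _ => h2 y,
      Finset.sum_coe_sort Y' fun y => (((y - 1 + E).choose E).choose 2 : ℤ), hY']
    by_cases h3 : 1 ∈ Y
    · rw [Finset.insert_eq_of_mem h3]
    · rw [Finset.sum_insert h3]
      have h4 : (1 - 1 + E).choose E = 1 := by
        rw [Nat.sub_self, zero_add, Nat.choose_self]
      rw [h4]
      simp
  · intro k
    by_cases h2 : ∃ l, lab l = lab k ∧ w l = (lab k).1
    · rw [hz1 _ h2]
      exact hlab k
    · rw [hz2 _ h2 ⟨k, rfl⟩]
      left
      rcases hlab k with h3 | h3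
      · exact absurd ⟨k, rfl, h3⟩ h2
      · omega
  · intro y hy
    by_cases h2 : ∃ l, lab l = y ∧ w l = y.1
    · rw [hz1 _ h2]
      exact h2
    · by_cases h3 : ∃ l, lab l = y
      · rw [hz2 _ h2 h3]
        obtain ⟨l, hl⟩ := h3
        refine ⟨l, hl, ?_⟩
        rcases hlab l with h4 | h4
        · exact absurd ⟨l, hl, by rw [h4, hl]⟩ h2
        · rw [hl] at h4
          omega
      · exact absurd (hz3 _ h3) hy
  · intro k _ hk0
    have hle : Function.update w k (w k - 1) ≤ w := by
      intro l
      by_cases hl : l = k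
      · rw [hl, Function.update_self]
        exact Nat.sub_le _ _
      · rw [Function.update_of_ne hl]
    have h2 := cd_lt hP (d := d) (u := Function.update w k (w k - 1)) k (fun h =>
      hne (le_bot_iff.1 ((Lw_mono hle).trans (le_of_eq h))))
    rw [Function.update_self] at h2
    have h3 : (w k - 1 + E).choose E ≤ ((lab k).1 - 1 + E).choose E := by
      refine Nat.choose_le_choose _ ?_
      rcases hlab k with h4 | h4 <;> omega
    show cd d P (Function.update w k (w k - 1)) k ≤ ((lab k).1 - 1 + E).choose E - 1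
    omega

/-- Raising the multiplicities of the points of `B` to `t`. -/
def rai (w : Fin n → ℕ) (B : Finset (Fin n)) (t : ℕ) : Fin n → ℕ := fun k =>
  if k ∈ B then t else w k

theorem rai_mem {w : Fin n → ℕ} {B : Finset (Fin n)} {t : ℕ} {k : Fin n} (h : k ∈ B) :
    rai w B t k = t := if_pos h

theorem rai_notMem {w : Fin n → ℕ} {B : Finset (Fin n)} {t : ℕ} {k : Fin n} (h : k ∉ B) :
    rai w B t k = w k := if_neg h

theorem cd_raise (hP : AlgebraicIndependent ℚ (fun q : Fin n × Fin (E + 1) => P q.1 q.2))
    {d : ℕ} {w : Fin n → ℕ} {i : Fin n} {t : ℕ} (hcd : cd d P w i ≠ 0)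
    (ht : ∀ k, k ≠ i → w k ≤ t) : ∀ (m : ℕ) (B : Finset (Fin n)), B.card = m → i ∉ B →
      (∀ b ∈ B, w b < t) → (∀ b ∈ B, ∀ k, k ∉ B → k ≠ i → w k ≠ 0 → w b ≤ w k) →
      Lw d P (rai w B t) ≠ ⊥ → cd d P w i + m ≤ cd d P (rai w B t) i := by
  classical
  intro m
  induction m with
  | zero =>
    intro B hB _ _ _ _
    have h : rai w B t = w := by
      funext k
      rw [Finset.card_eq_zero] at hB
      rw [hB]
      exact rai_notMem (Finset.notMem_empty k)
    rw [h]
    exact le_rfl
  | succ m ih =>
    intro B hB hi hbt hbk hne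
    have hBne : B.Nonempty := by
      rw [← Finset.card_pos]
      omega
    obtain ⟨b, hb, hbmax⟩ := Finset.exists_max_image B w hBne
    obtain ⟨B', hB'⟩ : ∃ B', B' = B.erase b := ⟨_, rfl⟩
    have hbB' : b ∉ B' := by
      rw [hB']
      exact Finset.notMem_erase _ _
    have hsub : ∀ k ∈ B', k ∈ B := fun k hk => by
      rw [hB'] at hk
      exact Finset.mem_of_mem_erase hk
    have hbi : b ≠ i := fun h => hi (h ▸ hb)
    have hle : rai w B' t ≤ rai w B t := by
      intro k
      by_cases hk : k ∈ B'
      · rw [rai_mem hk, rai_mem (hsub k hk)]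
      · rw [rai_notMem hk]
        by_cases hk' : k ∈ B
        · rw [rai_mem hk']
          exact (hbt k hk').le
        · rw [rai_notMem hk']
    have hii : rai w B' t i = rai w B t i := by
      rw [rai_notMem hi, rai_notMem fun h => hi (hsub i h)]
    have h1 := ih B' (by
        rw [hB', Finset.card_erase_of_mem hb]
        omega) (fun h => hi (hsub i h)) (fun k hk => hbt k (hsub k hk)) (by
        intro c hc k hk hki hk0
        by_cases hkb : k = b
        · rw [hkb]
          exact hbmax c (hsub c hc)
        · refine hbk c (hsub c hc) k ?_ hki hk0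
          intro h2
          apply hk
          rw [hB']
          exact Finset.mem_erase.2 ⟨hkb, h2⟩) (fun h =>
        hne (le_bot_iff.1 ((Lw_mono hle).trans (le_of_eq h))))
    have h2 := cd_grow hP hle hii (fun k hki hk0 => ⟨b, hbi, ?_, ?_, ?_⟩) hne
    · rcases h2 with h2 | h2
      · have h3 : cd d P (rai w B' t) i ≤ cd d P (rai w B t) i := cd_mono hle hii
        omega
      · omega
    · rw [rai_mem hb, rai_notMem hbB']
      exact hbt b hb
    · rw [rai_notMem hbB']
      by_cases hk : k ∈ B
      · rw [rai_mem hk]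
        exact (hbt b hb).le
      · rw [rai_notMem hk] at hk0 ⊢
        exact hbk b hb k hk hki hk0
    · rw [rai_mem hb]
      by_cases hk : k ∈ B
      · rw [rai_mem hk]
      · rw [rai_notMem hk]
        exact ht k hki

theorem cd_down (hP : AlgebraicIndependent ℚ (fun q : Fin n × Fin (E + 1) => P q.1 q.2))
    {d : ℕ} {w : Fin n → ℕ} {i : Fin n} (hne : Lw d P w ≠ ⊥)
    (h : cd d P (Function.update w i (w i - 1)) i = 0) :
    ∀ j, j < w i → cd d P (Function.update w i (w i - 1 - j)) i = 0 := by
  intro j
  induction j with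
  | zero =>
    intro _
    exact h
  | succ j ih =>
    intro hj
    have h1 := ih (by omega)
    have hle : Function.update w i (w i - 1 - (j + 1) + 1) ≤ w := by
      intro l
      by_cases hl : l = i
      · rw [hl, Function.update_self]
        show w i - 1 - (j + 1) + 1 ≤ w i
        omega
      · rw [Function.update_of_ne hl]
    have h2 := cd_low hP (d := d) (u := w) (i := i) (t := w i - 1 - (j + 1)) (fun h3 =>
      hne (le_bot_iff.1 ((Lw_mono hle).trans (le_of_eq h3))))
    by_cases hj' : j + 1 < w i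
    · have e : w i - 1 - (j + 1) + 1 = w i - 1 - j := by omega
      rw [e] at h2
      omega
    · omega

/-- If the conditions are dependent, then there is a point where the leading forms of one degree
less than the multiplicity are not everything. -/
theorem exists_cd (hP : AlgebraicIndependent ℚ (fun q : Fin n × Fin (E + 1) => P q.1 q.2))
    {d : ℕ} {w : Fin n → ℕ} (hne : Lw d P w ≠ ⊥)
    (h : ∀ i, 2 ≤ w i → cd d P (Function.update w i (w i - 1)) i = 0) : hs d P w = 0 := by
  classical
  have hall : ∀ u ≤ w, ∀ i, u i < w i → cd d P u i = 0 := by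
    intro u hu i hi
    have h0 : cd d P (Function.update w i (w i - 1)) i = 0 := by
      by_cases h2 : 2 ≤ w i
      · exact h i h2
      · refine cd_zero_of_one hP (fun h3 => ?_) ?_
        · have hle : Function.update w i (w i - 1) ≤ w := by
            intro l
            by_cases hl : l = i
            · rw [hl, Function.update_self]
              exact Nat.sub_le _ _
            · rw [Function.update_of_ne hl]
          exact hne (le_bot_iff.1 ((Lw_mono hle).trans (le_of_eq h3)))
        · rw [Function.update_self]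
          omega
    have h1 := cd_down hP hne h0 (w i - 1 - u i) (by omega)
    have e : w i - 1 - (w i - 1 - u i) = u i := by omega
    rw [e] at h1
    have h2 : cd d P u i ≤ cd d P (Function.update w i (u i)) i := by
      refine cd_mono (fun l => ?_) ?_
      · by_cases hl : l = i
        · rw [hl, Function.update_self]
        · rw [Function.update_of_ne hl]
          exact hu l
      · rw [Function.update_self]
    omega
  have key : ∀ m : ℕ, ∀ u ≤ w, ∑ k, u k = m → hs d P u = 0 := by
    intro m
    induction m with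
    | zero =>
      intro u _ hm
      have h1 : u = fun _ => 0 := by
        funext k
        exact Finset.sum_eq_zero_iff.1 hm k (Finset.mem_univ k)
      rw [h1]
      exact hs_zero d P
    | succ m ih =>
      intro u hu hm
      obtain ⟨i, hi⟩ : ∃ i, u i ≠ 0 := by
        by_contra h1
        push Not at h1
        rw [Finset.sum_eq_zero fun k _ => h1 k] at hm
        omega
      obtain ⟨u', hu'⟩ : ∃ u', u' = Function.update u i (u i - 1) := ⟨_, rfl⟩
      have h1 : u' i = u i - 1 := by rw [hu', Function.update_self]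
      have h2 : Function.update u' i (u' i + 1) = u := by
        rw [hu', Function.update_self, Function.update_idem]
        have e : u i - 1 + 1 = u i := by omega
        rw [e, Function.update_eq_self]
      have h3 : u' ≤ u := by
        intro k
        by_cases hk : k = i
        · subst hk
          rw [h1]
          exact Nat.sub_le _ _
        · rw [hu', Function.update_of_ne hk]
      have h4 : ∑ k, u' k = m := by
        have h5 : ∑ k, u k = ∑ k, u' k + 1 := by
          rw [← Finset.add_sum_erase Finset.univ u (Finset.mem_univ i),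
            ← Finset.add_sum_erase Finset.univ u' (Finset.mem_univ i), h1]
          have h6 : ∑ k ∈ Finset.univ.erase i, u' k = ∑ k ∈ Finset.univ.erase i, u k := by
            refine Finset.sum_congr rfl fun k hk => ?_
            rw [hu', Function.update_of_ne (Finset.ne_of_mem_erase hk)]
          rw [h6]
          omega
        omega
      have h5 := ih u' (h3.trans hu) h4
      have h6 := hs_succ d P u' i
      have h8 : u i ≤ w i := hu i
      rw [h2, h5, hall u' (h3.trans hu) i (by omega)] at h6
      rw [h6]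
      simp
  exact key _ w le_rfl rfl

/-- Independence from the existence of forms with larger multiplicities. -/
theorem indep_of_raise (hP : AlgebraicIndependent ℚ (fun q : Fin n × Fin (E + 1) => P q.1 q.2))
    {d : ℕ} {w : Fin n → ℕ} (hne : Lw d P w ≠ ⊥)
    (h : ∀ i, 2 ≤ w i → ∃ (B : Finset (Fin n)) (t : ℕ), i ∉ B ∧ (∀ b ∈ B, w b < t) ∧
      (∀ k, k ≠ i → w k ≤ t) ∧ (∀ b ∈ B, ∀ k, k ∉ B → k ≠ i → w k ≠ 0 → w b ≤ w k) ∧
      (w i - 1 + E).choose E ≤ B.card + 1 ∧ Lw d P (rai w B t) ≠ ⊥) : hs d P w = 0 := by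
  classical
  refine exists_cd hP hne fun i hi => ?_
  obtain ⟨B, t, h1, h2, h3, h4, h5, h6⟩ := h i hi
  by_contra hcd
  obtain ⟨v, hv⟩ : ∃ v, v = Function.update w i (w i - 1) := ⟨_, rfl⟩
  have hvl : ∀ l, l ≠ i → v l = w l := fun l hl => by rw [hv, Function.update_of_ne hl]
  have hbi : ∀ b ∈ B, b ≠ i := fun b hb h => h1 (h ▸ hb)
  rw [← hv] at hcd
  have hle : rai v B t ≤ rai w B t := by
    intro k
    by_cases hk : k ∈ B
    · rw [rai_mem hk, rai_mem hk]
    · rw [rai_notMem hk, rai_notMem hk]
      by_cases hki : k = i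
      · rw [hki, hv, Function.update_self]
        exact Nat.sub_le _ _
      · rw [hvl k hki]
  have hne' : Lw d P (rai v B t) ≠ ⊥ := fun h7 =>
    h6 (le_bot_iff.1 ((Lw_mono hle).trans (le_of_eq h7)))
  have h7 := cd_raise hP hcd (t := t) (fun k hk => by
      rw [hvl k hk]
      exact h3 k hk) B.card B rfl h1 (fun b hb => by
      rw [hvl b (hbi b hb)]
      exact h2 b hb) (fun b hb k hk hki hk0 => by
      rw [hvl b (hbi b hb), hvl k hki]
      rw [hvl k hki] at hk0
      exact h4 b hb k hk hki hk0) hne'
  have h8 := cd_lt hP i hne'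
  rw [rai_notMem h1, hv, Function.update_self] at h8
  rw [hv] at h7 hcd
  omega

end Pool.Agent.Q78.GW
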