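import Mathlib
import Pool.Agent.Q78.GW.Raise

set_option autoImplicit false

/-!
# Equal multiplicities, and more points
-/

namespace Pool.Agent.Q78.GW

open MvPolynomial Pool.Agent.H932R5

variable {K : Type} [Field K] [CharZero K] {E n : ℕ} {P : Fin n → Fin (E + 1) → K}

/-- The dimension of a special nonempty system with equal multiplicities `m`, if there are enough
points. -/
theorem uni_dim (hP : AlgebraicIndependent ℚ (fun q : Fin n × Fin (E + 1) => P q.1 q.2))
    {d m N : ℕ} (hm : 1 ≤ m) (hN : (m - 1 + E).choose E = N + 1) (hn : N < n)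
    (hne : Lw d P (fun _ => m) ≠ ⊥) (hsp : hs d P (fun _ => m) ≠ 0) :
    Module.finrank K ↥(Lw d P (fun _ => m)) ≤
      ∑ l ∈ Finset.range N, ((m + E).choose E - (N + 1 - l)) := by
  classical
  obtain ⟨w, hw⟩ : ∃ w : Fin n → ℕ, w = fun _ => m := ⟨_, rfl⟩
  have hwk : ∀ k, w k = m := fun k => by rw [hw]
  rw [← hw] at hne hsp ⊢
  -- a point with a missing form
  obtain ⟨i, hi⟩ : ∃ i, cd d P (Function.update w i (w i - 1)) i ≠ 0 := by
    by_contra h
    push Not at h
    exact hsp (exists_cd hP hne fun i _ => h i)
  have hall : ∀ b, cd d P (Function.update w b (m - 1)) b ≠ 0 := by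
    intro b
    have h1 := cd_perm hP d (Function.update w i (w i - 1)) (Equiv.swap b i) b
    rw [Equiv.swap_apply_left] at h1
    have h2 : (Function.update w i (w i - 1)) ∘ (Equiv.swap b i) =
        Function.update w b (m - 1) := by
      funext l
      rw [Function.comp_apply]
      by_cases hl : l = b
      · subst hl
        rw [Equiv.swap_apply_left, Function.update_self, Function.update_self, hwk]
      · by_cases hl' : l = i
        · subst hl'
          rw [Equiv.swap_apply_right, Function.update_of_ne (Ne.symm hl),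
            Function.update_of_ne hl, hwk, hwk]
        · rw [Equiv.swap_apply_of_ne_of_ne hl hl', Function.update_of_ne hl',
            Function.update_of_ne hl]
    rw [h2] at h1
    rw [h1]
    exact hi
  -- the level m - 1
  have hlow : ∀ (B : Finset (Fin n)) (b : Fin n), b ∉ B → Lw d P (rai w B (m + 1)) ≠ ⊥ →
      B.card + 1 ≤ cd d P (Function.update (rai w B (m + 1)) b (m - 1)) b ∧
        Lw d P (Function.update (rai w B (m + 1)) b (m - 1)) ≠ ⊥ := by
    intro B b hb hneB
    obtain ⟨v, hv⟩ : ∃ v, v = Function.update w b (m - 1) := ⟨_, rfl⟩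
    have hbi : ∀ c ∈ B, c ≠ b := fun c hc h => hb (h ▸ hc)
    have hvc : ∀ c, c ≠ b → v c = m := fun c hc => by rw [hv, Function.update_of_ne hc, hwk]
    have he : rai v B (m + 1) = Function.update (rai w B (m + 1)) b (m - 1) := by
      funext k
      by_cases hk : k = b
      · rw [hk, Function.update_self, rai_notMem hb, hv, Function.update_self]
      · rw [Function.update_of_ne hk]
        by_cases hkB : k ∈ B
        · rw [rai_mem hkB, rai_mem hkB]
        · rw [rai_notMem hkB, rai_notMem hkB, hvc k hk, hwk]
    have hle : Function.update (rai w B (m + 1)) b (m - 1) ≤ rai w B (m + 1) := by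
      intro k
      by_cases hk : k = b
      · rw [hk, Function.update_self, rai_notMem hb, hwk]
        exact Nat.sub_le _ _
      · rw [Function.update_of_ne hk]
    have hne' : Lw d P (Function.update (rai w B (m + 1)) b (m - 1)) ≠ ⊥ := fun h =>
      hneB (le_bot_iff.1 ((Lw_mono hle).trans (le_of_eq h)))
    refine ⟨?_, hne'⟩
    have hcd : cd d P v b ≠ 0 := by
      rw [hv]
      exact hall b
    have h1 := cd_raise hP hcd (t := m + 1) (fun k hk => by
        rw [hvc k hk]
        exact Nat.le_succ m) B.card B rfl hb (fun c hc => by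
        rw [hvc c (hbi c hc)]
        exact Nat.lt_succ_self m) (fun c hc k hk hkb _ => by
        rw [hvc c (hbi c hc), hvc k hkb]) (by rwa [he])
    rw [he] at h1
    omega
  have hzero : ∀ B : Finset (Fin n), B.card = N → Lw d P (rai w B (m + 1)) = ⊥ := by
    intro B hB
    by_contra hneB
    obtain ⟨b, hb⟩ : ∃ b, b ∉ B := by
      by_contra h
      push Not at h
      have h1 : B = Finset.univ := Finset.eq_univ_iff_forall.2 h
      rw [h1, Finset.card_univ, Fintype.card_fin] at hB
      omega
    obtain ⟨h1, h2⟩ := hlow B b hb hneB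
    have h3 := cd_lt hP b h2
    rw [Function.update_self, hN] at h3
    omega
  have key : ∀ q : ℕ, ∀ B : Finset (Fin n), B.card + q = N →
      Module.finrank K ↥(Lw d P (rai w B (m + 1))) ≤
        ∑ l ∈ Finset.range q, ((m + E).choose E - (N + 1 - l)) := by
    intro q
    induction q with
    | zero =>
      intro B hB
      rw [hzero B (by omega), finrank_bot]
      exact Nat.zero_le _
    | succ q ih =>
      intro B hB
      by_cases hneB : Lw d P (rai w B (m + 1)) = ⊥
      · rw [hneB, finrank_bot]
        exact Nat.zero_le _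
      · obtain ⟨b, hb⟩ : ∃ b, b ∉ B := by
          by_contra h
          push Not at h
          have h1 : B = Finset.univ := Finset.eq_univ_iff_forall.2 h
          rw [h1, Finset.card_univ, Fintype.card_fin] at hB
          omega
        have h1 := ih (insert b B) (by
          rw [Finset.card_insert_of_notMem hb]
          omega)
        have h2 := finrank_split d P (rai w B (m + 1)) b
        have hbm : rai w B (m + 1) b = m := by rw [rai_notMem hb, hwk]
        have h3 : Function.update (rai w B (m + 1)) b (rai w B (m + 1) b + 1) =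
            rai w (insert b B) (m + 1) := by
          rw [hbm]
          funext k
          by_cases hk : k = b
          · rw [hk, Function.update_self, rai_mem (Finset.mem_insert_self b B)]
          · rw [Function.update_of_ne hk]
            by_cases hkB : k ∈ B
            · rw [rai_mem hkB, rai_mem (Finset.mem_insert_of_mem hkB)]
            · rw [rai_notMem hkB, rai_notMem]
              intro h
              rcases Finset.mem_insert.1 h with h | h
              · exact hk h
              · exact hkB h
        rw [h3] at h2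
        obtain ⟨h4, -⟩ := hlow B b hb hneB
        have h5 : Function.update (rai w B (m + 1)) b (m - 1 + 1) = rai w B (m + 1) := by
          have e : m - 1 + 1 = rai w B (m + 1) b := by omega
          rw [e, Function.update_eq_self]
        have h6 := cd_low hP (d := d) (u := rai w B (m + 1)) (i := b) (t := m - 1) (by rwa [h5])
        rw [h5] at h6
        have h7 := cd_add d P (rai w B (m + 1)) b
        rw [hbm] at h7
        rw [Finset.sum_range_succ]
        omega
  have h1 := key N ∅ (by rw [Finset.card_empty, zero_add])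
  have h2 : rai w ∅ (m + 1) = w := by
    funext k
    exact rai_notMem (Finset.notMem_empty k)
  rwa [h2] at h1

omit [CharZero K] in
/-- Points of multiplicity zero do not matter. -/
theorem Lw_append {N : ℕ} (d : ℕ) (P : Fin (n + N) → Fin (E + 1) → K) (w : Fin n → ℕ) :
    Lw d P (Fin.append w (fun _ : Fin N => 0)) = Lw d (fun i => P (Fin.castAdd N i)) w := by
  ext f
  rw [mem_Lw, mem_Lw]
  refine and_congr Iff.rfl ⟨fun h i α hα => ?_, fun h i => ?_⟩
  · refine h (Fin.castAdd N i) α ?_
    rwa [Fin.append_left]
  · refine Fin.addCases (fun j α hα => ?_) (fun j α hα => ?_) i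
    · rw [Fin.append_left] at hα
      exact h j α hα
    · rw [Fin.append_right] at hα
      exact absurd hα (Nat.not_lt_zero _)

omit [CharZero K] in
theorem hs_append {N : ℕ} (d : ℕ) (P : Fin (n + N) → Fin (E + 1) → K) (w : Fin n → ℕ) :
    hs d P (Fin.append w (fun _ : Fin N => 0)) = hs d (fun i => P (Fin.castAdd N i)) w := by
  unfold hs
  rw [Lw_append, Fin.sum_univ_add]
  have h1 : ∑ i : Fin N, ((Fin.append w (fun _ : Fin N => 0) (Fin.natAdd n i) + E).choose (E + 1) :
      ℤ) = 0 := by
    refine Finset.sum_eq_zero fun i _ => ?_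
    rw [Fin.append_right]
    have : (0 + E).choose (E + 1) = 0 := Nat.choose_eq_zero_of_lt (by omega)
    exact_mod_cast this
  have h2 : ∀ i : Fin n, Fin.append w (fun _ : Fin N => 0) (Fin.castAdd N i) = w i := fun i =>
    Fin.append_left _ _ _
  rw [h1, add_zero]
  simp only [h2]

theorem alg_castAdd {N : ℕ} {P : Fin (n + N) → Fin (E + 1) → K}
    (hP : AlgebraicIndependent ℚ (fun q : Fin (n + N) × Fin (E + 1) => P q.1 q.2)) :
    AlgebraicIndependent ℚ (fun q : Fin n × Fin (E + 1) => P (Fin.castAdd N q.1) q.2) := by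
  have h := hP.comp (fun q : Fin n × Fin (E + 1) => (Fin.castAdd N q.1, q.2)) (fun a b hab => by
    have h1 := Prod.mk.inj hab
    exact Prod.ext (Fin.castAdd_injective n N h1.1) h1.2)
  exact h

/-- Nonnegativity. -/
theorem hs_nonneg (d : ℕ) (P : Fin n → Fin (E + 1) → K) (w : Fin n → ℕ) : 0 ≤ hs d P w := by
  have h1 := lw_rank P w d
  have h2 := Matrix.rank_le_card_height ((cmt (E := E) w d).map (evq P))
  rw [card_Cnd] at h2
  unfold hs
  have h3 : ((∑ i : Fin n, (w i + E).choose (E + 1) : ℕ) : ℤ) =
      ∑ i : Fin n, ((w i + E).choose (E + 1) : ℤ) := by push_cast; rfl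
  rw [← h3]
  omega

/-- Generic points. -/
theorem exists_gen (n E : ℕ) : ∃ (K : Type) (_ : Field K) (_ : CharZero K)
    (P : Fin n → Fin (E + 1) → K),
    AlgebraicIndependent ℚ (fun q : Fin n × Fin (E + 1) => P q.1 q.2) := by
  let R := MvPolynomial (Fin n × Fin (E + 1)) ℚ
  let F := FractionRing R
  have h0 : CharZero F := charZero_of_injective_algebraMap (IsFractionRing.injective R F)
  refine ⟨F, inferInstance, h0, fun i a => algebraMap R F (X (i, a)), ?_⟩
  have h1 : AlgebraicIndependent ℚ (fun q : Fin n × Fin (E + 1) => (X q : R)) :=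
    MvPolynomial.algebraicIndependent_X _ _
  let φ : R →ₐ[ℚ] F := IsScalarTower.toAlgHom ℚ R F
  have h2 : Function.Injective φ := IsFractionRing.injective R F
  have h3 := h1.map' h2
  exact h3

/-- If there are more forms than `N` points of the largest multiplicity can kill, then the
conditions are independent. -/
theorem indep_of_many (hP : AlgebraicIndependent ℚ (fun q : Fin n × Fin (E + 1) => P q.1 q.2))
    {d μ N : ℕ} {w : Fin n → ℕ} (hμ : ∀ i, w i ≤ μ) (hN : (μ - 1 + E).choose E ≤ N + 1)
    (h : ((∑ i, (w i + E).choose (E + 1) : ℕ) : ℤ) + N * ((μ + E).choose (E + 1) : ℤ) <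
      ((d + E + 1).choose (E + 1) : ℤ)) : hs d P w = 0 := by
  classical
  obtain ⟨K1, i1, i2, P1, hP1⟩ := exists_gen (n + N) E
  have hP1' := alg_castAdd hP1
  have hgen : hs d P w = hs d (fun i => P1 (Fin.castAdd N i)) w := by
    have h1 : Module.finrank K ↥(Lw d P w) =
        Module.finrank K1 ↥(Lw d (fun i => P1 (Fin.castAdd N i)) w) :=
      gen_eq (P' := fun i => P1 (Fin.castAdd N i)) hP hP1' w d
    unfold hs
    rw [h1]
  rw [hgen, ← hs_append]
  obtain ⟨v, hv⟩ : ∃ v, v = Fin.append w (fun _ : Fin N => 0) := ⟨_, rfl⟩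
  have hvl : ∀ i, v (Fin.castAdd N i) = w i := fun i => by rw [hv, Fin.append_left]
  have hvr : ∀ i, v (Fin.natAdd n i) = 0 := fun i => by rw [hv, Fin.append_right]
  obtain ⟨B, hB⟩ : ∃ B : Finset (Fin (n + N)), B = Finset.univ.image (Fin.natAdd n) := ⟨_, rfl⟩
  have hBc : B.card = N := by
    rw [hB, Finset.card_image_of_injective _ (Fin.natAdd_injective N n), Finset.card_univ,
      Fintype.card_fin]
  have hBr : ∀ i, Fin.natAdd n i ∈ B := fun i => by
    rw [hB]
    exact Finset.mem_image_of_mem _ (Finset.mem_univ i)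
  have hBl : ∀ i, Fin.castAdd N i ∉ B := by
    intro i hi
    rw [hB, Finset.mem_image] at hi
    obtain ⟨j, -, hj⟩ := hi
    have := congrArg Fin.val hj
    rw [Fin.val_natAdd, Fin.val_castAdd] at this
    have := i.2
    omega
  have hvμ : ∀ k, v k ≤ μ := by
    intro k
    refine Fin.addCases (fun j => ?_) (fun j => ?_) k
    · rw [hvl]
      exact hμ j
    · rw [hvr]
      exact Nat.zero_le _
  have hB0 : ∀ b ∈ B, v b = 0 := by
    intro b hb
    rw [hB, Finset.mem_image] at hb
    obtain ⟨j, -, rfl⟩ := hb
    exact hvr j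
  have hrai : Lw d P1 (rai v B μ) ≠ ⊥ := by
    intro h0
    have h1 := hs_nonneg d P1 (rai v B μ)
    unfold hs at h1
    rw [h0, finrank_bot, Fin.sum_univ_add] at h1
    have h2 : ∀ i : Fin n, rai v B μ (Fin.castAdd N i) = w i := fun i => by
      rw [rai_notMem (hBl i), hvl]
    have h3 : ∀ i : Fin N, rai v B μ (Fin.natAdd n i) = μ := fun i => rai_mem (hBr i)
    simp only [h2, h3, Finset.sum_const, Finset.card_univ, Fintype.card_fin, nsmul_eq_mul] at h1
    push_cast at h h1
    linarith
  have hle : v ≤ rai v B μ := by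
    intro k
    by_cases hk : k ∈ B
    · rw [rai_mem hk]
      exact hvμ k
    · rw [rai_notMem hk]
  have hne : Lw d P1 v ≠ ⊥ := fun h0 =>
    hrai (le_bot_iff.1 ((Lw_mono hle).trans (le_of_eq h0)))
  rw [← hv]
  refine indep_of_raise hP1 hne fun i hi => ⟨B, μ, ?_, ?_, fun k _ => hvμ k, ?_, ?_, hrai⟩
  · intro h1
    rw [hB0 i h1] at hi
    omega
  · intro b hb
    rw [hB0 b hb]
    have := hvμ i
    omega
  · intro b hb k _ _ _
    rw [hB0 b hb]
    exact Nat.zero_le _
  · rw [hBc]
    refine le_trans (Nat.choose_le_choose _ ?_) hN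
    have := hvμ i
    omega

end Pool.Agent.Q78.GW
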