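import Mathlib
import Pool.Agent.Q78.GW.Uni

set_option autoImplicit false

/-!
# General points over the complex numbers
-/

namespace Pool.Agent.Q78.GW

open MvPolynomial Pool.Agent.H932R5

theorem eval_map_eq {E n : ℕ} (P : Fin n → Fin (E + 1) → ℂ)
    (F : MvPolynomial (Fin n × Fin (E + 1)) ℚ) :
    MvPolynomial.eval (fun q : Fin n × Fin (E + 1) => P q.1 q.2) (F.map (algebraMap ℚ ℂ)) =
      evq P F := by
  rw [MvPolynomial.eval_map]
  rfl

/-- The dimension of the space of forms at general points. -/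
theorem general_dim (E n : ℕ) (w : Fin n → ℕ) (d : ℕ) :
    ∃ (K0 : Type) (_ : Field K0) (_ : CharZero K0) (P0 : Fin n → Fin (E + 1) → K0)
      (F : MvPolynomial (Fin n × Fin (E + 1)) ℂ),
      AlgebraicIndependent ℚ (fun q : Fin n × Fin (E + 1) => P0 q.1 q.2) ∧ F ≠ 0 ∧
      ∀ P : Fin n → Fin (E + 1) → ℂ,
        MvPolynomial.eval (fun q : Fin n × Fin (E + 1) => P q.1 q.2) F ≠ 0 →
        Module.finrank ℂ ↥(Vd d w P) = Module.finrank K0 ↥(Lw d P0 w) := by
  obtain ⟨K0, i1, i2, P0, hP0⟩ := exists_gen n E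
  obtain ⟨F, hF, hF'⟩ := open_dim w d hP0
  refine ⟨K0, i1, i2, P0, F.map (algebraMap ℚ ℂ), hP0, fun h => hF ?_, fun P hP => ?_⟩
  · refine MvPolynomial.map_injective (algebraMap ℚ ℂ) (algebraMap ℚ ℂ).injective ?_
    rw [h, map_zero]
  · rw [eval_map_eq] at hP
    rw [finrank_Vd_eq, ← Lw_eq]
    exact hF' ℂ P hP

/-- The bound for the superabundance. -/
def bd (E : ℕ) (Y : Finset ℕ) : ℤ := ∑ y ∈ Y, (((y - 1 + E).choose E).choose 2 : ℤ)

theorem bd_nonneg (E : ℕ) (Y : Finset ℕ) : 0 ≤ bd E Y :=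
  Finset.sum_nonneg fun _ _ => Nat.cast_nonneg _

/-- The naive dimension. -/
def nv (E : ℕ) {n : ℕ} (w : Fin n → ℕ) (d : ℕ) : ℤ :=
  ((d + E + 1).choose (E + 1) : ℤ) - ∑ i, ((w i + E).choose (E + 1) : ℤ)

section

variable {K : Type} [Field K] [CharZero K] {E n : ℕ} {P : Fin n → Fin (E + 1) → K}

omit [CharZero K] in
theorem dim_eq (d : ℕ) (P : Fin n → Fin (E + 1) → K) (w : Fin n → ℕ) :
    (Module.finrank K ↥(Lw d P w) : ℤ) = nv E w d + hs d P w := by
  unfold nv hs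
  ring

theorem gen_bound (hP : AlgebraicIndependent ℚ (fun q : Fin n × Fin (E + 1) => P q.1 q.2))
    (w : Fin n → ℕ) (d : ℕ) (Y : Finset ℕ) (hY : ∀ i, 2 ≤ w i → w i ∈ Y ∨ w i + 1 ∈ Y) :
    ((Module.finrank K ↥(Lw d P w) : ℤ) ≠ 0 →
        (Module.finrank K ↥(Lw d P w) : ℤ) ≤ nv E w d + bd E Y) ∧
      (nv E w d ≤ - bd E Y → (Module.finrank K ↥(Lw d P w) : ℤ) = max 0 (nv E w d)) := by
  have hb := bd_nonneg E Y
  have h0 := dim_eq d P w
  by_cases hne : Lw d P w = ⊥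
  · have h1 : (Module.finrank K ↥(Lw d P w) : ℤ) = 0 := by
      rw [hne, finrank_bot]
      rfl
    rw [h1]
    refine ⟨fun h => absurd rfl h, fun h => ?_⟩
    rw [max_eq_left (by linarith)]
  · have h1 := hs_le hP d w Y hY hne
    change hs d P w ≤ bd E Y at h1
    refine ⟨fun _ => by linarith, fun h => ?_⟩
    · exfalso
      have h2 : (Module.finrank K ↥(Lw d P w) : ℤ) ≤ 0 := by linarith
      have i1 := Lw_fin d P w
      exact hne (Submodule.finrank_eq_zero.1 (by omega))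

theorem gen_indep (hP : AlgebraicIndependent ℚ (fun q : Fin n × Fin (E + 1) => P q.1 q.2))
    (w : Fin n → ℕ) (d μ : ℕ) (hμ : ∀ i, w i ≤ μ)
    (h : (((μ - 1 + E).choose E : ℤ) - 1) * ((μ + E).choose (E + 1) : ℤ) < nv E w d) :
    (Module.finrank K ↥(Lw d P w) : ℤ) = max 0 (nv E w d) := by
  have hpos : 0 < (μ - 1 + E).choose E := Nat.choose_pos (by omega)
  obtain ⟨N, hN⟩ : ∃ N, (μ - 1 + E).choose E = N + 1 := ⟨_, (Nat.sub_add_cancel hpos).symm⟩
  have h0 := dim_eq d P w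
  have h1 : hs d P w = 0 := by
    refine indep_of_many hP hμ hN.le ?_
    rw [hN] at h
    unfold nv at h
    push_cast at h ⊢
    linarith
  have h2 : (0 : ℤ) ≤ Module.finrank K ↥(Lw d P w) := Nat.cast_nonneg _
  rw [h0, h1, add_zero, max_eq_right]
  rw [h0, h1, add_zero] at h2
  exact h2

/-- Equal multiplicities. -/
theorem gen_uni (hP : AlgebraicIndependent ℚ (fun q : Fin n × Fin (E + 1) => P q.1 q.2))
    {d m ν : ℕ} (hm : 1 ≤ m) (hν : (m - 1 + E).choose E = ν) (hn : ν ≤ n)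
    (h : ((ν : ℤ) - 1) * (2 * ((m + E).choose E : ℤ) - ν - 2) ≤
      2 * nv E (fun _ : Fin n => m) d) :
    (Module.finrank K ↥(Lw d P (fun _ => m)) : ℤ) = max 0 (nv E (fun _ : Fin n => m) d) := by
  have hpos : 0 < (m - 1 + E).choose E := Nat.choose_pos (by omega)
  obtain ⟨N, hN⟩ : ∃ N, ν = N + 1 := ⟨ν - 1, by omega⟩
  rw [hN] at hν hn h
  have hM : N + 1 ≤ (m + E).choose E := by
    rw [← hν]
    exact Nat.choose_le_choose _ (by omega)
  obtain ⟨M, hM'⟩ : ∃ M, M = (m + E).choose E := ⟨_, rfl⟩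
  rw [← hM'] at hM h
  have hsum : ((∑ l ∈ Finset.range N, (M - (N + 1 - l)) : ℕ) : ℤ) * 2 =
      (N : ℤ) * (2 * M - N - 3) := by
    have h1 : ∀ q : ℕ, q ≤ N → ((∑ l ∈ Finset.range q, (M - (N + 1 - l)) : ℕ) : ℤ) * 2 =
        (q : ℤ) * (2 * M - 2 * N - 3 + q) := by
      intro q
      induction q with
      | zero => intro _; simp
      | succ q ih =>
        intro hq
        have h2 := ih (by omega)
        rw [Finset.sum_range_succ]
        have h3 : ((M - (N + 1 - q) : ℕ) : ℤ) = (M : ℤ) - (N + 1 - q) := by omega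
        push_cast [h3] at h2 ⊢
        rw [add_mul, h2]
        ring
    rw [h1 N le_rfl]
    ring
  have hnn : (0 : ℤ) ≤ (N : ℤ) * (2 * M - N - 3) := by
    rw [← hsum]
    positivity
  have h0 := dim_eq d P (fun _ : Fin n => m)
  have h2 : (0 : ℤ) ≤ Module.finrank K ↥(Lw d P (fun _ : Fin n => m)) := Nat.cast_nonneg _
  have h3 := hs_nonneg d P (fun _ : Fin n => m)
  have hnv : (N : ℤ) * (2 * M - N - 3) ≤ 2 * nv E (fun _ : Fin n => m) d := by
    push_cast at h
    linarith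
  by_cases hne : Lw d P (fun _ : Fin n => m) = ⊥
  · have h4 : (Module.finrank K ↥(Lw d P (fun _ : Fin n => m)) : ℤ) = 0 := by
      rw [hne, finrank_bot]
      rfl
    rw [h4, max_eq_left]
    linarith
  · by_cases hsp : hs d P (fun _ : Fin n => m) = 0
    · rw [h0, hsp, add_zero, max_eq_right]
      linarith
    · exfalso
      have h4 := uni_dim hP hm hν (by omega) hne hsp
      rw [← hM'] at h4
      have h5 : (Module.finrank K ↥(Lw d P (fun _ : Fin n => m)) : ℤ) ≤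
          ((∑ l ∈ Finset.range N, (M - (N + 1 - l)) : ℕ) : ℤ) := by exact_mod_cast h4
      have h6 : 0 < hs d P (fun _ : Fin n => m) := lt_of_le_of_ne h3 (Ne.symm hsp)
      linarith

end

end Pool.Agent.Q78.GW
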