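import Mathlib
import Pool.Agent.Q78.GW.Final

set_option autoImplicit false

/-!
# Growth of the leading forms when the multiplicities of all the other points are lowered
-/

namespace Pool.Agent.Q78.GW

open MvPolynomial Pool.Agent.H932R5

section ball

variable {K : Type} [Field K] {E : ℕ}

/-- The shear which moves the point `(1, 0, …, 0)`. -/
noncomputable def shear (s : Fin (E + 1) → K) :
    MvPolynomial (Fin (E + 1)) K →ₐ[K] MvPolynomial (Fin (E + 1)) K :=
  aeval fun c => X c + C (s c) * X 0

theorem shear_X (s : Fin (E + 1) → K) (c : Fin (E + 1)) :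
    shear s (X c) = X c + C (s c) * X 0 := by
  unfold shear
  rw [aeval_X]

theorem shear_C (s : Fin (E + 1) → K) (c : K) : shear s (C c) = C c := by
  unfold shear
  rw [aeval_C]
  rfl

theorem pderiv_shear (s : Fin (E + 1) → K) (g : MvPolynomial (Fin (E + 1)) K) :
    pderiv 0 (shear s g) = shear s (pderiv 0 g + ∑ c, C (s c) * pderiv c g) := by
  classical
  induction g using MvPolynomial.induction_on with
  | C c => simp [shear_C]
  | add f g hf hg =>
    rw [map_add, map_add, hf, hg, ← map_add]
    congr 1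
    simp only [map_add, mul_add, Finset.sum_add_distrib]
    ring
  | mul_X f j hf =>
    have h1 : ∀ c, C (s c) * pderiv c (f * X j) =
        C (s c) * pderiv c f * X j + (if c = j then C (s j) * f else 0) := by
      intro c
      rw [Derivation.leibniz, smul_eq_mul, smul_eq_mul, pderiv_X]
      split_ifs with h
      · subst h
        simp
        ring
      · simp [Pi.single_apply, Ne.symm h]
        ring
    obtain ⟨δ, hδ⟩ : ∃ δ, δ = pderiv 0 f + ∑ c, C (s c) * pderiv c f := ⟨_, rfl⟩
    have h2 : pderiv 0 (f * X j) + ∑ c, C (s c) * pderiv c (f * X j) =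
        δ * X j + f * (pderiv 0 (X j) + C (s j)) := by
      rw [Finset.sum_congr rfl fun c _ => h1 c, Finset.sum_add_distrib, Finset.sum_ite_eq',
        if_pos (Finset.mem_univ _), ← Finset.sum_mul, Derivation.leibniz, smul_eq_mul, smul_eq_mul,
        hδ]
      ring
    have h3 : pderiv 0 (X j + C (s j) * X 0 : MvPolynomial (Fin (E + 1)) K) =
        shear s (pderiv 0 (X j)) + C (s j) := by
      rw [map_add, Derivation.leibniz, smul_eq_mul, smul_eq_mul, pderiv_C, mul_zero, add_zero,
        pderiv_X_self, mul_one, pderiv_X]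
      by_cases h : j = 0
      · subst h
        simp
      · simp [Pi.single_apply, h]
    have h4 : pderiv 0 (shear s (f * X j)) =
        shear s f * (shear s (pderiv 0 (X j)) + C (s j)) + (X j + C (s j) * X 0) * shear s δ := by
      rw [map_mul, Derivation.leibniz, smul_eq_mul, smul_eq_mul, hf, shear_X, h3, hδ]
    rw [h4, h2, map_add, map_mul, map_mul, map_add, shear_X, shear_C]
    ring

/-- The derivatives in the first direction. -/
theorem coeff_iter (hK : CharZero K) (q : ℕ) : ∀ (s : ℕ) (F : MvPolynomial (Fin (E + 1)) K),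
    coeff (Finsupp.single 0 (q + s)) F ≠ 0 →
      coeff (Finsupp.single 0 q) ((fun g => pderiv 0 g)^[s] F) ≠ 0 := by
  intro s
  induction s with
  | zero =>
    intro F h
    exact h
  | succ s ih =>
    intro F h
    rw [Function.iterate_succ_apply]
    refine ih _ ?_
    rw [coeff_pderiv, ← Finsupp.single_add]
    refine mul_ne_zero h ?_
    exact Nat.cast_add_one_ne_zero _

/-- The elements which are obtained from `F`. -/
noncomputable def bel (F : MvPolynomial (Fin (E + 1)) K) (β : Fin (E + 1) →₀ ℕ) :
    MvPolynomial (Fin (E + 1)) K :=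
  monomial (β.erase 0) 1 * (fun g => pderiv 0 g)^[Finsupp.degree (β.erase 0)] F

theorem pderiv_mono {γ : Fin (E + 1) →₀ ℕ} (h : γ 0 = 0) (g : MvPolynomial (Fin (E + 1)) K) :
    pderiv 0 (monomial γ 1 * g) = monomial γ 1 * pderiv 0 g := by
  rw [Derivation.leibniz, smul_eq_mul, smul_eq_mul, pderiv_monomial, h]
  simp

theorem iter_mem (W : ℕ → Submodule K (MvPolynomial (Fin (E + 1)) K))
    {F : MvPolynomial (Fin (E + 1)) K} (h0 : F ∈ W 0)
    (hst : ∀ j, ∀ g ∈ W j, ∀ b, b ≠ 0 → X b * pderiv 0 g ∈ W (j + 1)) :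
    ∀ (s : ℕ) (γ : Fin (E + 1) →₀ ℕ), γ 0 = 0 → Finsupp.degree γ = s →
      monomial γ 1 * (fun g => pderiv 0 g)^[s] F ∈ W s := by
  classical
  intro s
  induction s with
  | zero =>
    intro γ _ h
    have h1 : γ = 0 := by
      rwa [Finsupp.degree_eq_zero_iff] at h
    rw [h1, monomial_zero', C_1, one_mul]
    exact h0
  | succ s ih =>
    intro γ hγ h
    obtain ⟨a, ha⟩ : ∃ a, γ a ≠ 0 := by
      by_contra h2
      push Not at h2
      have h3 : γ = 0 := Finsupp.ext h2
      rw [h3, map_zero] at h
      omega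
    have ha0 : a ≠ 0 := fun h2 => ha (h2 ▸ hγ)
    obtain ⟨γ', hγ'⟩ : ∃ γ', γ' = γ - Finsupp.single a 1 := ⟨_, rfl⟩
    have h1 : γ' + Finsupp.single a 1 = γ := by
      rw [hγ']
      exact tsub_add_cancel_of_le (Finsupp.single_le_iff.2 (Nat.one_le_iff_ne_zero.2 ha))
    have h2 : Finsupp.degree γ' = s := by
      have h3 := congrArg Finsupp.degree h1
      rw [map_add, Finsupp.degree_single] at h3
      omega
    have h3 : γ' 0 = 0 := by
      rw [hγ', Finsupp.tsub_apply, hγ, Nat.zero_sub]
    have h4 := hst s _ (ih γ' h3 h2) a ha0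
    rw [pderiv_mono h3] at h4
    rw [Function.iterate_succ_apply']
    have h5 : (monomial γ 1 : MvPolynomial (Fin (E + 1)) K) = X a * monomial γ' 1 := by
      rw [mul_comm, ← h1, X, monomial_mul, mul_one]
    rw [h5, mul_assoc]
    exact h4

theorem degree_erase_add (β : Fin (E + 1) →₀ ℕ) :
    Finsupp.degree (β.erase 0) + β 0 = Finsupp.degree β := by
  have h := congrArg Finsupp.degree (Finsupp.erase_add_single 0 β)
  rwa [map_add, Finsupp.degree_single] at h

/-- The elements are linearly independent. -/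
theorem bel_inj (hK : CharZero K) {t j : ℕ} (hj : j ≤ t) {F : MvPolynomial (Fin (E + 1)) K}
    (hF : coeff (Finsupp.single 0 t) F ≠ 0) {p : MvPolynomial (Fin (E + 1)) K}
    (hp : p.IsHomogeneous j) (h : ∑ β ∈ p.support, coeff β p • bel F β = 0) : p = 0 := by
  classical
  by_contra hp0
  have hne : p.support.Nonempty := by
    rw [Finset.nonempty_iff_ne_empty]
    intro h1
    exact hp0 (MvPolynomial.support_eq_empty.1 h1)
  obtain ⟨β, hβ, hmin⟩ := Finset.exists_min_image p.support
    (fun β => Finsupp.degree (β.erase 0)) hne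
  have hdeg : ∀ γ ∈ p.support, Finsupp.degree γ = j := by
    intro γ hγ
    have h1 := hp (MvPolynomial.mem_support_iff.1 hγ)
    rwa [Finsupp.degree_eq_weight_one]
  obtain ⟨s, hs⟩ : ∃ s, s = Finsupp.degree (β.erase 0) := ⟨_, rfl⟩
  have hsj : s ≤ j := by
    have h1 := degree_erase_add β
    rw [hdeg β hβ] at h1
    omega
  have h1 := congrArg (coeff (β.erase 0 + Finsupp.single 0 (t - s))) h
  rw [coeff_sum, coeff_zero, Finset.sum_eq_single β] at h1
  · rw [coeff_smul, smul_eq_mul] at h1
    rcases mul_eq_zero.1 h1 with h2 | h2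
    · exact MvPolynomial.mem_support_iff.1 hβ h2
    · unfold bel at h2
      rw [coeff_monomial_mul', if_pos le_self_add, one_mul, add_tsub_cancel_left, ← hs] at h2
      refine coeff_iter hK (t - s) s F ?_ h2
      have e : t - s + s = t := by omega
      rwa [e]
  · intro γ hγ hγβ
    rw [coeff_smul, smul_eq_mul]
    refine mul_eq_zero_of_right _ ?_
    unfold bel
    rw [coeff_monomial_mul', if_neg]
    intro hle
    apply hγβ
    have h2 : γ.erase 0 ≤ β.erase 0 := by
      intro c
      by_cases hc : c = 0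
      · subst hc
        rw [Finsupp.erase_same, Finsupp.erase_same]
      · have h3 := hle c
        rwa [Finsupp.add_apply, Finsupp.single_apply, if_neg (Ne.symm hc), add_zero] at h3
    have h3 : Finsupp.degree (β.erase 0) ≤ Finsupp.degree (γ.erase 0) := hmin γ hγ
    have h4 : γ.erase 0 = β.erase 0 := by
      have h5 : γ.erase 0 + (β.erase 0 - γ.erase 0) = β.erase 0 := add_tsub_cancel_of_le h2
      have h6 := congrArg Finsupp.degree h5
      rw [map_add] at h6
      have h7 : Finsupp.degree (β.erase 0 - γ.erase 0) = 0 := by omega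
      rw [Finsupp.degree_eq_zero_iff] at h7
      rw [h7, add_zero] at h5
      exact h5
    have h5 := degree_erase_add γ
    have h6 := degree_erase_add β
    rw [hdeg γ hγ, h4] at h5
    rw [hdeg β hβ] at h6
    rw [← Finsupp.erase_add_single 0 γ, ← Finsupp.erase_add_single 0 β, h4]
    congr 2
    omega
  · intro h2
    exact absurd hβ h2

/-- The main linear algebra statement, if the first coefficient is different from zero. -/
theorem ball_aux (hK : CharZero K) {t j : ℕ} (hj : j ≤ t)
    (W : ℕ → Submodule K (MvPolynomial (Fin (E + 1)) K))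
    (hfin : FiniteDimensional K ↥(W j))
    (hmono : ∀ l, W l ≤ W (l + 1))
    {F : MvPolynomial (Fin (E + 1)) K} (h0 : F ∈ W 0)
    (hF : coeff (Finsupp.single 0 t) F ≠ 0)
    (hst : ∀ l, ∀ g ∈ W l, ∀ b, b ≠ 0 → X b * pderiv 0 g ∈ W (l + 1)) :
    (j + E).choose E ≤ Module.finrank K ↥(W j) := by
  classical
  have hmon : Monotone W := monotone_nat_of_le_succ hmono
  have hmem : ∀ β : Fin (E + 1) →₀ ℕ, Finsupp.degree β = j → bel F β ∈ W j := by
    intro β hβ
    have h1 := iter_mem W h0 hst (Finsupp.degree (β.erase 0)) (β.erase 0) Finsupp.erase_same rfl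
    refine hmon ?_ h1
    have h2 := degree_erase_add β
    omega
  obtain ⟨Φ, hΦ⟩ : ∃ Φ : MvPolynomial (Fin (E + 1)) K →ₗ[K] MvPolynomial (Fin (E + 1)) K,
      ∀ p, Φ p = ∑ β ∈ p.support, coeff β p • bel F β := by
    refine ⟨(basisMonomials (Fin (E + 1)) K).constr K (bel F), fun p => ?_⟩
    conv_lhs => rw [← support_sum_monomial_coeff p]
    rw [map_sum]
    refine Finset.sum_congr rfl fun β _ => ?_
    have h1 : monomial β (coeff β p) = coeff β p • (basisMonomials (Fin (E + 1)) K β) := by
      rw [coe_basisMonomials, smul_monomial, smul_eq_mul, mul_one]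
    rw [h1, map_smul, Module.Basis.constr_basis]
  have hcod : ∀ p : ↥(homogeneousSubmodule (Fin (E + 1)) K j), Φ p.1 ∈ W j := by
    intro p
    rw [hΦ]
    refine Submodule.sum_mem _ fun β hβ => Submodule.smul_mem _ _ (hmem β ?_)
    have h1 := p.2 (MvPolynomial.mem_support_iff.1 hβ)
    rwa [Finsupp.degree_eq_weight_one]
  obtain ⟨Ψ, hΨ⟩ : ∃ Ψ : ↥(homogeneousSubmodule (Fin (E + 1)) K j) →ₗ[K] ↥(W j),
      ∀ p, (Ψ p).1 = Φ p.1 :=
    ⟨LinearMap.codRestrict (W j) (Φ.comp (Submodule.subtype _)) hcod, fun p => rfl⟩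
  have hinj : Function.Injective Ψ := by
    rw [injective_iff_map_eq_zero]
    intro p hp
    have h1 : Φ p.1 = 0 := by
      rw [← hΨ, hp]
      rfl
    rw [hΦ] at h1
    exact Subtype.ext (bel_inj hK hj hF p.2 h1)
  have h1 := LinearMap.finrank_le_finrank_of_injective hinj
  rwa [finrank_homog] at h1

/-- The value of a form of degree `t` at `(1, 0, …, 0)`. -/
theorem coeff_ne_of_eval {t : ℕ} {F : MvPolynomial (Fin (E + 1)) K} (hF : F.IsHomogeneous t)
    (h : MvPolynomial.eval (Pi.single 0 1) F ≠ 0) : coeff (Finsupp.single 0 t) F ≠ 0 := by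
  classical
  intro h0
  apply h
  rw [MvPolynomial.eval_eq']
  refine Finset.sum_eq_zero fun α hα => ?_
  by_cases h1 : ∀ c, c ≠ 0 → α c = 0
  · exfalso
    have h2 : α = Finsupp.single 0 (α 0) := by
      ext c
      by_cases hc : c = 0
      · subst hc
        rw [Finsupp.single_eq_same]
      · rw [h1 c hc, Finsupp.single_apply, if_neg (Ne.symm hc)]
    have h3 : Finsupp.degree α = t := by
      rw [Finsupp.degree_eq_weight_one]
      exact hF (MvPolynomial.mem_support_iff.1 hα)
    rw [h2, Finsupp.degree_single] at h3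
    rw [h3] at h2
    rw [← h2] at h0
    exact MvPolynomial.mem_support_iff.1 hα h0
  · push Not at h1
    obtain ⟨c, hc, hc'⟩ := h1
    refine mul_eq_zero_of_right _ (Finset.prod_eq_zero (Finset.mem_univ c) ?_)
    rw [Pi.single_apply, if_neg hc]
    exact zero_pow hc'

theorem eval_smul_homog {t : ℕ} {f : MvPolynomial (Fin (E + 1)) K} (hf : f.IsHomogeneous t)
    (a : K) (v : Fin (E + 1) → K) :
    MvPolynomial.eval (fun c => a * v c) f = a ^ t * MvPolynomial.eval v f := by
  rw [MvPolynomial.eval_eq', MvPolynomial.eval_eq', Finset.mul_sum]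
  refine Finset.sum_congr rfl fun α hα => ?_
  have h1 : ∑ c, α c = t := by
    have h2 : Finsupp.degree α = t := by
      rw [Finsupp.degree_eq_weight_one]
      exact hf (MvPolynomial.mem_support_iff.1 hα)
    rwa [degree_eq_sum'] at h2
  have h2 : ∏ c, (a * v c) ^ α c = a ^ t * ∏ c, v c ^ α c := by
    rw [← h1, ← Finset.prod_pow_eq_pow_sum, ← Finset.prod_mul_distrib]
    exact Finset.prod_congr rfl fun c _ => mul_pow _ _ _
  rw [h2]
  ring

/-- **The growth under the Lie algebra.** If the space `W 0` of forms of degree `t` is not zero and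
`W (l + 1)` contains `X b * ∂ a g` for all `g` in `W l`, then the dimension of `W j` is at least
that of the space of the forms of degree `j`, for all `j ≤ t`. -/
theorem ball (hK : CharZero K) {t j : ℕ} (hj : j ≤ t)
    (W : ℕ → Submodule K (MvPolynomial (Fin (E + 1)) K))
    (hW : ∀ l, W l ≤ homogeneousSubmodule (Fin (E + 1)) K t)
    (hmono : ∀ l, W l ≤ W (l + 1)) (h0 : W 0 ≠ ⊥)
    (hst : ∀ l, ∀ g ∈ W l, ∀ a b, X b * pderiv a g ∈ W (l + 1)) :
    (j + E).choose E ≤ Module.finrank K ↥(W j) := by
  classical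
  obtain ⟨f, hf, hf0⟩ := Submodule.exists_mem_ne_zero_of_ne_bot h0
  have hfin : ∀ l, FiniteDimensional K ↥(W l) := fun l => by
    have := homog_fin (K := K) (E := E) t
    exact Submodule.finiteDimensional_of_le (hW l)
  obtain ⟨v, hv⟩ : ∃ v : Fin (E + 1) → K, MvPolynomial.eval v (f * X 0) ≠ 0 := by
    by_contra h1
    push Not at h1
    have h2 : f * X 0 = 0 := MvPolynomial.funext fun v => by rw [h1 v, map_zero]
    rcases mul_eq_zero.1 h2 with h3 | h3
    · exact hf0 h3
    · exact MvPolynomial.X_ne_zero 0 h3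
  rw [map_mul, eval_X] at hv
  have hv1 : MvPolynomial.eval v f ≠ 0 := left_ne_zero_of_mul hv
  have hv0 : v 0 ≠ 0 := right_ne_zero_of_mul hv
  obtain ⟨s, hs⟩ : ∃ s : Fin (E + 1) → K, s = fun c => if c = 0 then 0 else v c / v 0 := ⟨_, rfl⟩
  have hs0 : s 0 = 0 := by
    rw [hs]
    exact if_pos rfl
  have hsc : ∀ c, c ≠ 0 → s c = v c / v 0 := fun c hc => by
    rw [hs]
    exact if_neg hc
  have hfh : f.IsHomogeneous t := hW 0 hf
  have hF : coeff (Finsupp.single 0 t) (shear s f) ≠ 0 := by
    refine coeff_ne_of_eval ?_ ?_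
    · unfold shear
      have h1 := hfh.aeval (fun c => X c + C (s c) * X 0) (n := 1) (fun c => by
          refine IsHomogeneous.add (isHomogeneous_X _ _) ?_
          have h2 := (isHomogeneous_C (Fin (E + 1)) (s c)).mul (isHomogeneous_X K (0 : Fin (E + 1)))
          rwa [zero_add] at h2)
      rwa [one_mul] at h1
    · have h1 : MvPolynomial.eval (Pi.single 0 1) (shear s f) =
          MvPolynomial.eval (fun c => (v 0)⁻¹ * v c) f := by
        have h2 : ((MvPolynomial.eval (Pi.single (0 : Fin (E + 1)) (1 : K))).comp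
            (shear s : MvPolynomial (Fin (E + 1)) K →ₐ[K] MvPolynomial (Fin (E + 1)) K).toRingHom) =
            MvPolynomial.eval (fun c => (v 0)⁻¹ * v c) := by
          refine MvPolynomial.ringHom_ext (fun r => ?_) (fun c => ?_)
          · rw [RingHom.comp_apply]
            show MvPolynomial.eval _ (shear s (C r)) = _
            rw [shear_C, eval_C, eval_C]
          · rw [RingHom.comp_apply]
            show MvPolynomial.eval _ (shear s (X c)) = _
            rw [shear_X, map_add, map_mul, eval_X, eval_X, eval_C, eval_X, Pi.single_apply,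
              Pi.single_apply, if_pos rfl, mul_one]
            by_cases hc : c = 0
            · subst hc
              rw [if_pos rfl, hs0, add_zero, inv_mul_cancel₀ hv0]
            · rw [if_neg hc, hsc c hc, zero_add, div_eq_inv_mul]
        have h3 := RingHom.congr_fun h2 f
        rw [RingHom.comp_apply] at h3
        exact h3
      rw [h1, eval_smul_homog hfh]
      exact mul_ne_zero (pow_ne_zero _ (inv_ne_zero hv0)) hv1
  have hmapfin : FiniteDimensional K ↥((W j).map (shear s).toLinearMap) := by
    have := hfin j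
    infer_instance
  have h1 := ball_aux hK hj (fun l => (W l).map (shear s).toLinearMap) hmapfin
    (fun l => Submodule.map_mono (hmono l)) ⟨f, hf, rfl⟩ hF (by
      rintro l _ ⟨g, hg, rfl⟩ b hb
      have h2 : (X b - C (s b) * X 0) * (pderiv 0 g + ∑ c, C (s c) * pderiv c g) ∈ W (l + 1) := by
        have h3 : (X b - C (s b) * X 0) * (pderiv 0 g + ∑ c, C (s c) * pderiv c g) =
            X b * pderiv 0 g + ∑ c, s c • (X b * pderiv c g) -
              s b • (X 0 * pderiv 0 g + ∑ c, s c • (X 0 * pderiv c g)) := by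
          have h4 : ∀ b : Fin (E + 1), ∑ c, s c • (X b * pderiv c g) =
              X b * ∑ c, C (s c) * pderiv c g := by
            intro b
            rw [Finset.mul_sum]
            exact Finset.sum_congr rfl fun c _ => by
              rw [MvPolynomial.smul_eq_C_mul]
              ring
          rw [h4, h4, MvPolynomial.smul_eq_C_mul]
          ring
        rw [h3]
        refine Submodule.sub_mem _ (Submodule.add_mem _ (hst l g hg 0 b)
          (Submodule.sum_mem _ fun c _ => Submodule.smul_mem _ _ (hst l g hg c b)))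
          (Submodule.smul_mem _ _ (Submodule.add_mem _ (hst l g hg 0 0)
          (Submodule.sum_mem _ fun c _ => Submodule.smul_mem _ _ (hst l g hg c 0))))
      refine ⟨_, h2, ?_⟩
      show shear s _ = X b * pderiv 0 (shear s g)
      rw [map_mul, pderiv_shear, map_sub, map_mul, shear_X, shear_C, shear_X, hs0, map_zero,
        zero_mul, add_zero, add_sub_cancel_right])
  exact h1.trans (Submodule.finrank_map_le _ _)

end ball

end Pool.Agent.Q78.GW
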