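import Mathlib
import Pool.Agent.Q78.GW.Ball

set_option autoImplicit false

/-!
# Lowering the multiplicities of all the other points
-/

namespace Pool.Agent.Q78.GW

open MvPolynomial Pool.Agent.H932R5

variable {K : Type} [Field K] [CharZero K] {E n : ℕ} {P : Fin n → Fin (E + 1) → K}

/-- Moving all the points along a linear vector field which vanishes at `P i`. -/
theorem gl_step (hP : AlgebraicIndependent ℚ (fun q : Fin n × Fin (E + 1) => P q.1 q.2))
    {d : ℕ} {u u' : Fin n → ℕ} {i : Fin n} (hi : u' i = u i) (hle : u' ≤ u)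
    (hlow : ∀ k, k ≠ i → u' k ≤ u k - 1) {g : MvPolynomial (Fin (E + 1)) K}
    (hg : g ∈ Wl d P u i) (a b : Fin (E + 1)) : X b * pderiv a g ∈ Wl d P u' i := by
  classical
  obtain ⟨f, hf, rfl⟩ := hg
  obtain ⟨D, hD⟩ := ex_der hP (fun l c => if c = a then P l b - P i b else 0)
  have h0 : ∀ c, D (P i c) = 0 := by
    intro c
    rw [hD, sub_self, ite_self]
  have h1 := move_lin D i a b hD hf
  have h2 := ld_move_lin D (P := P) i a b hD (u i) f
  have h3 : dc D f ∈ Lw d P u' := by
    refine move D (fun k => ?_) hf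
    by_cases hk : k = i
    · subst hk
      exact Or.inl ⟨le_of_eq hi, h0⟩
    · exact Or.inr (hlow k hk)
  have h4 : (X b - C (P i b)) * pderiv a f ∈ Lw d P u' := by
    have h5 := Submodule.sub_mem _ (Lw_mono hle h1) h3
    rwa [add_sub_cancel_left] at h5
  refine ⟨_, h4, ?_⟩
  rw [hi]
  rw [map_add, ld_dc D h0] at h2
  exact add_left_cancel h2

/-- The multiplicities of all the other points are lowered by `j`. -/
def low (u : Fin n → ℕ) (i : Fin n) (j : ℕ) : Fin n → ℕ := fun k => if k = i then u i else u k - j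

theorem low_self (u : Fin n → ℕ) (i : Fin n) (j : ℕ) : low u i j i = u i := if_pos rfl

theorem low_ne (u : Fin n → ℕ) {i k : Fin n} (h : k ≠ i) (j : ℕ) : low u i j k = u k - j :=
  if_neg h

theorem low_zero (u : Fin n → ℕ) (i : Fin n) : low u i 0 = u := by
  funext k
  by_cases hk : k = i
  · subst hk
    rw [low_self]
  · rw [low_ne u hk, Nat.sub_zero]

theorem low_succ (u : Fin n → ℕ) (i : Fin n) (j : ℕ) : low u i (j + 1) ≤ low u i j := by
  intro k
  by_cases hk : k = i
  · subst hk
    rw [low_self, low_self]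
  · rw [low_ne u hk, low_ne u hk]
    exact Nat.sub_le_sub_left (Nat.le_succ j) (u k)

/-- The dimension of the leading forms after the multiplicities of all the other points have been
lowered by `j`. -/
theorem low_ball (hP : AlgebraicIndependent ℚ (fun q : Fin n × Fin (E + 1) => P q.1 q.2))
    {d : ℕ} {u : Fin n → ℕ} (hne : Lw d P u ≠ ⊥) (i : Fin n) {j : ℕ} (hj : j ≤ u i) :
    (j + E).choose E ≤ Module.finrank K ↥(Wl d P (low u i j) i) := by
  refine ball inferInstance hj (fun l => Wl d P (low u i l) i) (fun l => ?_) (fun l => ?_) ?_ ?_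
  · have h := Wl_homog d P (low u i l) i
    rwa [low_self] at h
  · exact Wl_mono (low_succ u i l) (by rw [low_self, low_self])
  · rw [low_zero]
    exact Wl_ne_bot hP hne i
  · intro l g hg a b
    refine gl_step hP (by rw [low_self, low_self]) (low_succ u i l) (fun k hk => ?_) hg a b
    rw [low_ne u hk, low_ne u hk]
    omega

/-- The same for the missing forms. -/
theorem cd_ball (hP : AlgebraicIndependent ℚ (fun q : Fin n × Fin (E + 1) => P q.1 q.2))
    {d : ℕ} {u w : Fin n → ℕ} (hne : Lw d P u ≠ ⊥) {i : Fin n} (hi : w i ≤ u i) (j : ℕ)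
    (hw : ∀ k, k ≠ i → w k ≤ u k - j) :
    cd d P w i ≤ (w i + E).choose E - (j + E).choose E := by
  classical
  obtain ⟨v, hv⟩ : ∃ v, v = Function.update u i (w i) := ⟨_, rfl⟩
  have hvi : v i = w i := by rw [hv, Function.update_self]
  have hvu : v ≤ u := by
    intro k
    by_cases hk : k = i
    · subst hk
      rw [hvi]
      exact hi
    · rw [hv, Function.update_of_ne hk]
  have hvne : Lw d P v ≠ ⊥ := fun h => hne (le_bot_iff.1 ((Lw_mono hvu).trans (le_of_eq h)))
  obtain ⟨l, hl⟩ : ∃ l, l = min j (w i) := ⟨_, rfl⟩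
  have h1 := low_ball hP hvne i (j := l) (by rw [hvi, hl]; exact min_le_right _ _)
  have hle : w ≤ low v i l := by
    intro k
    by_cases hk : k = i
    · subst hk
      rw [low_self, hvi]
    · rw [low_ne v hk, hv, Function.update_of_ne hk]
      refine (hw k hk).trans ?_
      rw [hl]
      omega
  have h2 : cd d P w i ≤ cd d P (low v i l) i := cd_mono hle (by rw [low_self, hvi])
  have h3 := cd_add d P (low v i l) i
  rw [low_self, hvi] at h3
  rcases le_total j (w i) with h4 | h4
  · rw [min_eq_left h4] at hl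
    rw [hl] at h1 h2 h3
    omega
  · rw [min_eq_right h4] at hl
    rw [hl] at h1 h2 h3
    omega

/-- The conditions are independent if there is a form with much larger multiplicities. -/
theorem hs_zero_of_shift
    (hP : AlgebraicIndependent ℚ (fun q : Fin n × Fin (E + 1) => P q.1 q.2))
    {d : ℕ} {v w : Fin n → ℕ} (hne : Lw d P v ≠ ⊥) (hle : w ≤ v)
    (h : ∀ i k, k ≠ i → w i = 0 ∨ w k = 0 ∨ w k + w i ≤ v k + 1) : hs d P w = 0 := by
  classical
  have hwne : Lw d P w ≠ ⊥ := fun h => hne (le_bot_iff.1 ((Lw_mono hle).trans (le_of_eq h)))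
  refine exists_cd hP hwne fun i hi => ?_
  have h1 := cd_ball hP hne (w := Function.update w i (w i - 1)) (i := i)
    (by rw [Function.update_self]; exact (Nat.sub_le _ _).trans (hle i)) (w i - 1) (fun k hk => by
      rw [Function.update_of_ne hk]
      rcases h i k hk with h2 | h2 | h2 <;> omega)
  rw [Function.update_self, Nat.sub_self] at h1
  omega

/-- The superabundance, if there is a bound for the missing forms. -/
theorem hs_le_gen (hP : AlgebraicIndependent ℚ (fun q : Fin n × Fin (E + 1) => P q.1 q.2)) (d : ℕ)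
    (w : Fin n → ℕ) (Y : Finset ℕ) (hY : ∀ k, 2 ≤ w k → w k ∈ Y ∨ w k + 1 ∈ Y)
    (hne : Lw d P w ≠ ⊥) (B : ℕ → ℕ) (hB : Monotone B) (hB1 : B 1 = 0)
    (hcd : ∀ k, w k ≠ 0 → cd d P (Function.update w k (w k - 1)) k ≤ B (w k)) :
    hs d P w ≤ ∑ y ∈ Y, ((B y + 1).choose 2 : ℤ) := by
  classical
  obtain ⟨Y', hY'⟩ : ∃ Y', Y' = insert 1 Y := ⟨_, rfl⟩
  have h1Y : 1 ∈ Y' := hY' ▸ Finset.mem_insert_self _ _
  have hYY : ∀ y ∈ Y, y ∈ Y' := fun y hy => hY' ▸ Finset.mem_insert_of_mem hy
  have hex : ∀ k, ∃ y : ↥Y', w k = y.1 ∨ w k + 1 = y.1 := by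
    intro k
    by_cases h : 2 ≤ w k
    · rcases hY k h with h1 | h1
      · exact ⟨⟨w k, hYY _ h1⟩, Or.inl rfl⟩
      · exact ⟨⟨w k + 1, hYY _ h1⟩, Or.inr rfl⟩
    · refine ⟨⟨1, h1Y⟩, ?_⟩
      show w k = 1 ∨ w k + 1 = 1
      omega
  choose lab hlab using hex
  obtain ⟨z, hz⟩ : ∃ z : ↥Y' → ℕ, z = fun y => if ∃ k, lab k = y ∧ w k = y.1 then y.1 else
      if ∃ k, lab k = y then y.1 - 1 else 0 := ⟨_, rfl⟩
  have hz1 : ∀ y, (∃ k, lab k = y ∧ w k = y.1) → z y = y.1 := fun y h => by
    rw [hz]
    exact if_pos h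
  have hz2 : ∀ y, (¬ ∃ k, lab k = y ∧ w k = y.1) → (∃ k, lab k = y) → z y = y.1 - 1 :=
    fun y h h' => by
    rw [hz]
    show (if ∃ k, lab k = y ∧ w k = y.1 then y.1 else
      if ∃ k, lab k = y then y.1 - 1 else 0) = y.1 - 1
    rw [if_neg h, if_pos h']
  have hz3 : ∀ y, (¬ ∃ k, lab k = y) → z y = 0 := fun y h => by
    rw [hz]
    show (if ∃ k, lab k = y ∧ w k = y.1 then y.1 else
      if ∃ k, lab k = y then y.1 - 1 else 0) = 0
    rw [if_neg fun h' => h ⟨h'.choose, h'.choose_spec.1⟩, if_neg h]
  have h1 := groups lab hP d (∑ k, w k) w z (fun y => B y.1) rfl ?_ ?_ ?_ hne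
  · refine h1.trans (le_of_eq ?_)
    rw [Finset.sum_coe_sort Y' fun y => ((B y + 1).choose 2 : ℤ), hY']
    by_cases h3 : 1 ∈ Y
    · rw [Finset.insert_eq_of_mem h3]
    · rw [Finset.sum_insert h3, hB1]
      simp
  · intro k
    by_cases h2 : ∃ l, lab l = lab k ∧ w l = (lab k).1
    · rw [hz1 _ h2]
      exact hlab k
    · rw [hz2 _ h2 ⟨k, rfl⟩]
      left
      rcases hlab k with h3 | h3
      · exact absurd ⟨k, rfl, h3⟩ h2
      · omega
  · intro y hy
    by_cases h2 : ∃ l, lab l = y ∧ w l = y.1
    · rw [hz1 _ h2]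
      exact h2
    · by_cases h3 : ∃ l, lab l = y
      · rw [hz2 _ h2 h3]
        obtain ⟨l, hl⟩ := h3
        refine ⟨l, hl, ?_⟩
        rcases hlab l with h4 | h4
        · exact absurd ⟨l, hl, by rw [h4, hl]⟩ h2
        · rw [hl] at h4
          omega
      · exact absurd (hz3 _ h3) hy
  · intro k _ hk0
    refine (hcd k hk0).trans (hB ?_)
    rcases hlab k with h4 | h4 <;> omega

/-- The superabundance, if there is a form whose multiplicities are larger by `c`. -/
theorem hs_le_ball (hP : AlgebraicIndependent ℚ (fun q : Fin n × Fin (E + 1) => P q.1 q.2)) (d : ℕ)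
    {v w : Fin n → ℕ} (hne : Lw d P v ≠ ⊥) (hle : w ≤ v) (c : ℕ)
    (hc : ∀ k, w k = 0 ∨ w k + c ≤ v k) (Y : Finset ℕ)
    (hY : ∀ k, 2 ≤ w k → w k ∈ Y ∨ w k + 1 ∈ Y) :
    hs d P w ≤ ∑ y ∈ Y, (((y - 1 + E).choose E - (c + E).choose E + 1).choose 2 : ℤ) := by
  classical
  have hwne : Lw d P w ≠ ⊥ := fun h => hne (le_bot_iff.1 ((Lw_mono hle).trans (le_of_eq h)))
  have h1 := hs_le_gen hP d w Y hY hwne (fun y => (y - 1 + E).choose E - (c + E).choose E) ?_ ?_ ?_
  · exact_mod_cast h1
  · intro a b hab
    exact Nat.sub_le_sub_right (Nat.choose_le_choose _ (by omega)) _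
  · have h2 : 0 < (c + E).choose E := Nat.choose_pos (by omega)
    show (1 - 1 + E).choose E - (c + E).choose E = 0
    rw [Nat.sub_self, zero_add, Nat.choose_self]
    omega
  · intro k hk
    have h2 := cd_ball hP hne (w := Function.update w k (w k - 1)) (i := k)
      (by rw [Function.update_self]; exact (Nat.sub_le _ _).trans (hle k)) c (fun l hl => by
        rw [Function.update_of_ne hl]
        rcases hc l with h3 | h3 <;> omega)
    rwa [Function.update_self] at h2

/-- Equal multiplicities: raising all the other points one after the other. -/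
theorem cd_steps (hP : AlgebraicIndependent ℚ (fun q : Fin n × Fin (E + 1) => P q.1 q.2))
    {d m : ℕ} (hm : 1 ≤ m) (i : Fin n) :
    ∀ c : ℕ, Lw d P (fun _ : Fin n => m + c) ≠ ⊥ →
      cd d P (Function.update (fun _ : Fin n => m) i (m - 1)) i ≠ 0 →
      cd d P (Function.update (fun _ : Fin n => m) i (m - 1)) i + c * (n - 1) ≤
        cd d P (Function.update (fun _ : Fin n => m + c) i (m - 1)) i := by
  classical
  intro c
  induction c with
  | zero =>
    intro _ _
    rw [zero_mul, add_zero, add_zero]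
  | succ c ih =>
    intro hne h0
    have hle : (fun _ : Fin n => m + c) ≤ (fun _ : Fin n => m + (c + 1)) := fun _ => by
      show m + c ≤ m + (c + 1)
      omega
    have hne' : Lw d P (fun _ : Fin n => m + c) ≠ ⊥ := fun h =>
      hne (le_bot_iff.1 ((Lw_mono hle).trans (le_of_eq h)))
    have h1 := ih hne' h0
    obtain ⟨w, hw⟩ : ∃ w, w = Function.update (fun _ : Fin n => m + c) i (m - 1) := ⟨_, rfl⟩
    have hwi : w i = m - 1 := by rw [hw, Function.update_self]
    have hwk : ∀ k, k ≠ i → w k = m + c := fun k hk => by rw [hw, Function.update_of_ne hk]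
    have hrai : rai w (Finset.univ.erase i) (m + (c + 1)) =
        Function.update (fun _ : Fin n => m + (c + 1)) i (m - 1) := by
      funext k
      by_cases hk : k = i
      · subst hk
        rw [rai_notMem (Finset.notMem_erase _ _), Function.update_self, hwi]
      · rw [rai_mem (Finset.mem_erase.2 ⟨hk, Finset.mem_univ _⟩), Function.update_of_ne hk]
    have hne2 : Lw d P (rai w (Finset.univ.erase i) (m + (c + 1))) ≠ ⊥ := by
      rw [hrai]
      intro h
      refine hne (le_bot_iff.1 ((Lw_mono fun k => ?_).trans (le_of_eq h)))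
      by_cases hk : k = i
      · subst hk
        rw [Function.update_self]
        show m - 1 ≤ m + (c + 1)
        omega
      · rw [Function.update_of_ne hk]
    rw [← hw] at h1
    have h2 := cd_raise hP (d := d) (w := w) (i := i) (t := m + (c + 1)) (by omega)
      (fun k hk => by rw [hwk k hk]; omega) (n - 1) (Finset.univ.erase i)
      (by rw [Finset.card_erase_of_mem (Finset.mem_univ _), Finset.card_univ, Fintype.card_fin])
      (Finset.notMem_erase _ _) (fun b hb => by
        rw [hwk b (Finset.ne_of_mem_erase hb)]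
        omega) (fun b _ k hk hk' _ => absurd (Finset.mem_erase.2 ⟨hk', Finset.mem_univ _⟩) hk) hne2
    rw [hrai] at h2
    have e : (c + 1) * (n - 1) = c * (n - 1) + (n - 1) := by ring
    omega

/-- The superabundance for equal multiplicities, if there is a form whose multiplicities are larger
by `c`. -/
theorem hs_le_uni (hP : AlgebraicIndependent ℚ (fun q : Fin n × Fin (E + 1) => P q.1 q.2))
    {d m c : ℕ} (hm : 1 ≤ m) (hne : Lw d P (fun _ : Fin n => m + c) ≠ ⊥) :
    hs d P (fun _ : Fin n => m) ≤ (((m - 1 + E).choose E -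
      max ((c + E).choose E) (c * (n - 1) + 1) + 1).choose 2 : ℤ) := by
  classical
  have hle : (fun _ : Fin n => m) ≤ (fun _ : Fin n => m + c) := fun _ => Nat.le_add_right _ _
  have hwne : Lw d P (fun _ : Fin n => m) ≠ ⊥ := fun h =>
    hne (le_bot_iff.1 ((Lw_mono hle).trans (le_of_eq h)))
  have h1 := hs_le_gen hP d (fun _ : Fin n => m) {m}
    (fun _ _ => Or.inl (Finset.mem_singleton_self _)) hwne
    (fun y => (y - 1 + E).choose E - max ((c + E).choose E) (c * (n - 1) + 1)) ?_ ?_ ?_
  · rw [Finset.sum_singleton] at h1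
    exact_mod_cast h1
  · intro a b hab
    exact Nat.sub_le_sub_right (Nat.choose_le_choose _ (by omega)) _
  · have h2 : 0 < (c + E).choose E := Nat.choose_pos (by omega)
    show (1 - 1 + E).choose E - max ((c + E).choose E) (c * (n - 1) + 1) = 0
    rw [Nat.sub_self, zero_add, Nat.choose_self]
    omega
  · intro k _
    show cd d P (Function.update (fun _ : Fin n => m) k (m - 1)) k ≤ _
    have h2 := cd_ball hP hne (w := Function.update (fun _ : Fin n => m) k (m - 1)) (i := k)
      (by rw [Function.update_self]; exact (Nat.sub_le _ _).trans (Nat.le_add_right _ _)) c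
      (fun l hl => by
        rw [Function.update_of_ne hl]
        exact Nat.le_of_eq (Nat.add_sub_cancel _ _).symm)
    rw [Function.update_self] at h2
    by_cases h0 : cd d P (Function.update (fun _ : Fin n => m) k (m - 1)) k = 0
    · rw [h0]
      exact Nat.zero_le _
    · have h3 := cd_steps hP hm k c hne h0
      have h4 := cd_lt hP (d := d) (u := Function.update (fun _ : Fin n => m + c) k (m - 1)) k
        (fun h => hne (le_bot_iff.1 ((Lw_mono fun l => ?_).trans (le_of_eq h))))
      · rw [Function.update_self] at h4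
        omega
      · by_cases hl : l = k
        · subst hl
          rw [Function.update_self]
          show m - 1 ≤ m + c
          omega
        · rw [Function.update_of_ne hl]

end Pool.Agent.Q78.GW
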